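import Pool.Agent.Helper54.UN.St

/-!
# Project UN, part (C): assembly, first part
-/

set_option autoImplicit false

open Set Filter Topology
open scoped ComplexConjugate

noncomputable section

namespace Pool.Agent.Helper54.UN

open Pool.Agent.Helper71.UN

theorem dt_neg_neg (p q : ℂ) : dt (-p) (-q) = dt p q := by simp [dt_eq]

theorem hh_neg_neg (d z : ℂ) : hh (-d) (-z) = hh d z := by simp [hh]

theorem tt_neg_neg (d z : ℂ) : tt (-d) (-z) = tt d z := by simp [tt]

theorem hh_neg_left (d z : ℂ) : hh (-d) z = - hh d z := by simp [hh]; ring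

theorem hh_neg_right (d z : ℂ) : hh d (-z) = - hh d z := by simp [hh]; ring

theorem hh_self_add (d z : ℂ) : hh d (z + d) = hh d z := by
  unfold hh
  congr 1
  simp [Complex.mul_im]
  ring

theorem ev_neg {x : ℂ} {P : ℂ → Prop} (h : ∀ᶠ y in 𝓝 (-x), P y) : ∀ᶠ y in 𝓝 x, P (-y) :=
  (continuous_neg.tendsto x).eventually h

theorem inH_open {a x : ℂ} (h : inH a x) : ∀ᶠ y in 𝓝 x, inH a y := by
  obtain ⟨⟨h1, h2, h3⟩, h4, h5, h6⟩ := h
  have c : ∀ p q : ℂ, Continuous fun y : ℂ => lf p q (-y) := fun p q =>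
    (continuous_lf p q).comp continuous_neg
  filter_upwards [evp (continuous_lf _ _) h1, evp (continuous_lf _ _) h2,
    evp (continuous_lf _ _) h3, evp (c _ _) h4, evp (c _ _) h5, evp (c _ _) h6]
    with y k1 k2 k3 k4 k5 k6
  exact ⟨⟨k1, k2, k3⟩, k4, k5, k6⟩

theorem lam_in {k l : ℤ} {a b τ x : ℂ} (h : inH a x) : lamN k l a b τ x = 0 := by
  unfold lamN
  rw [if_pos h]

theorem lam_out {k l : ℤ} {a b τ x : ℂ} (h : ¬ inH a x) (h2 : ouH b x) :
    lamN k l a b τ x = 1 := by
  unfold lamN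
  rw [if_neg h, if_pos h2]

theorem hOFF (hOFU : StOFU) (hELZ : StELZ) (hFAR : StFAR) : StOFF := by
  intro k l a b τ g hG x hx
  rcases lt_trichotomy (el x) 0 with h | h | h
  · have h1 : 0 < el (-x) := by
      simp only [el, Complex.neg_re, Complex.neg_im] at h ⊢
      linarith
    have h2 := hOFU k l a b τ g hG (-x) h1 (fun i => ⟨(hx i).2, by rw [neg_neg]; exact (hx i).1⟩)
    filter_upwards [ev_neg h2] with y hy
    rw [lam_even, lam_even] at hy
    exact hy
  · by_cases ho : ouH b x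
    · have h3 := (hFAR a b τ g hG x).2.2 ho
      have h4 := h3.self_of_nhds
      filter_upwards [h3] with y hy
      rw [lam_out hy.1 hy.2, lam_out h4.1 h4.2]
    · rcases hELZ a b τ g hG x h ho with h5 | h5 | h5
      · filter_upwards [inH_open h5] with y hy
        rw [lam_in hy, lam_in h5]
      · exact absurd h5 (hx 6).1
      · exact absurd h5 (hx 6).2
  · exact hOFU k l a b τ g hG x h hx

/-! ## The states -/

theorem d6_0 (a b τ h : ℂ) : d6 1 a b τ h 0 = a - τ := by
  simp [d6, pos6, ra6, rb6]; ring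

theorem d6_1 (a b τ h : ℂ) : d6 1 a b τ h 1 = a - om := by
  simp [d6, pos6, ra6, rb6]; ring

theorem d6_2 (a b τ h : ℂ) : d6 1 a b τ h 2 = b - om := by
  simp [d6, pos6, ra6, rb6]; ring

theorem d6_3 (a b τ h : ℂ) : d6 1 a b τ h 3 = b - τ := by
  simp [d6, pos6, ra6, rb6]; ring

theorem d6_4 (a b τ h : ℂ) : d6 1 a b τ h 4 = b - 1 := by
  simp [d6, pos6, ra6, rb6]; ring

theorem d6_5 (a b τ h : ℂ) : d6 1 a b τ h 5 = a - 1 := by
  simp [d6, pos6, ra6, rb6]; ring

theorem d6_6 (a b τ h : ℂ) : d6 1 a b τ h 6 = -(1 + om) := by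
  simp [d6, pos6, ra6, rb6]

theorem stz_eq (a b τ h z : ℂ) : stz6 1 a b τ h z = st6 (stN a b τ z) := by
  classical
  unfold stz6 stN
  have hre : (z * conj (1 : ℂ)).re = z.re := by simp
  rw [hre]
  have o0 : dA6 1 a b τ h 0 = a - τ := by
    unfold dA6; exact d6_0 a b τ h
  have o1 : dA6 1 a b τ h 1 = a - om := by
    unfold dA6; exact d6_1 a b τ h
  have o2 : dA6 1 a b τ h 2 = b - om := by
    unfold dA6; exact d6_2 a b τ h
  have o3 : dA6 1 a b τ h 3 = b - τ := by
    unfold dA6; exact d6_3 a b τ h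
  have p0 : dB6 1 a b τ h 0 = -(1 + om) := by
    unfold dB6; exact d6_6 a b τ h
  have p1 : dB6 1 a b τ h 1 = a - 1 := by
    unfold dB6; exact d6_5 a b τ h
  have p2 : dB6 1 a b τ h 2 = b - 1 := by
    unfold dB6; exact d6_4 a b τ h
  by_cases hz : 0 < z.re
  · rw [if_pos hz, if_pos hz]
    simp only [fstA, o0, o1, o2, o3, hh_le_iff, zero_add, Nat.reduceAdd]
    by_cases h0 : dt (a - τ) z ≤ 0
    · simp only [h0, if_true]; rfl
    · by_cases h1 : dt (a - om) z ≤ 0
      · simp only [h0, h1, if_true, if_false]; rfl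
      · by_cases h2 : dt (b - om) z ≤ 0
        · simp only [h0, h1, h2, if_true, if_false]; rfl
        · by_cases h3 : dt (b - τ) z ≤ 0
          · simp only [h0, h1, h2, h3, if_true, if_false]; rfl
          · simp only [h0, h1, h2, h3, if_false]; rfl
  · rw [if_neg hz, if_neg hz]
    simp only [fstB, p0, p1, p2, hh_ge_iff, zero_add, Nat.reduceAdd]
    by_cases h0 : 0 ≤ dt (-(1 + om)) z
    · simp only [h0, if_true]; rfl
    · by_cases h1 : 0 ≤ dt (a - 1) z
      · simp only [h0, h1, if_true, if_false]; rfl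
      · by_cases h2 : 0 ≤ dt (b - 1) z
        · simp only [h0, h1, h2, if_true, if_false]; rfl
        · simp only [h0, h1, h2, if_false]; rfl

end Pool.Agent.Helper54.UN
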