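import Pool.Agent.Helper54.UN.A1

/-!
# Project UN, part (C): assembly, second part: the combinatorics of the walls
-/

set_option autoImplicit false

open Set Filter Topology
open scoped ComplexConjugate

noncomputable section

namespace Pool.Agent.Helper54.UN

open Pool.Agent.Helper71.UN

/-- The normalised network. -/
def NN (k l : ℤ) (a b τ g : ℂ) : Nw Bool (Bool × Fin 7) 6 :=
  hexN k l 1 a b τ (-g) (lamN k l a b τ)

def up (i : Fin 7) : Bool := (![true, false, false, true, false, false, true] : Fin 7 → Bool) i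

theorem NN_d (k l : ℤ) (a b τ g : ℂ) (c : Bool) (i : Fin 7) :
    (NN k l a b τ g).d (c, i) =
      if c then vB a b i - vA τ i else -(vB a b i - vA τ i) := by
  fin_cases i <;> cases c <;>
    simp [NN, hexN, d6, pos6, ra6, rb6, vA, vB] <;> ring

theorem NN_sp (k l : ℤ) (a b τ g : ℂ) (c : Bool) (i : Fin 7) (e : Bool) :
    (NN k l a b τ g).sp (c, i) e =
      if c then (if e = up i then vA τ i else - vB a b i)
      else (if e = up i then vB a b i else - vA τ i) := by
  fin_cases i <;> cases c <;> cases e <;>
    simp [NN, Nw.sp, hexN, pos6, ra6, rb6, vA, vB, up]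

/-- The points of the walls. -/
theorem NN_pt (k l : ℤ) (a b τ g : ℂ) (c : Bool) (i : Fin 7) (e : Bool) (t : ℝ) :
    (NN k l a b τ g).sp (c, i) e + t * (NN k l a b τ g).d (c, i) =
      if e = up i then
        (if c then vA τ i + t * (vB a b i - vA τ i)
          else vA τ i + ((1 - t : ℝ) : ℂ) * (vB a b i - vA τ i))
      else
        (if c then -(vA τ i + ((1 - t : ℝ) : ℂ) * (vB a b i - vA τ i))
          else -(vA τ i + t * (vB a b i - vA τ i))) := by
  rw [NN_sp, NN_d]
  cases c <;> by_cases h : e = up i <;> simp [h] <;> ring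

theorem NN_ll (k l : ℤ) (a b τ g : ℂ) (c : Bool) (i : Fin 7) (e : Bool) :
    (NN k l a b τ g).ll (c, i) e = if c = decide (e = up i) then vl k l i else vr k l i := by
  fin_cases i <;> cases c <;> cases e <;>
    simp [NN, Nw.ll, hexN, vl, vr, up, lb, st6, ra6]

theorem NN_rl (k l : ℤ) (a b τ g : ℂ) (c : Bool) (i : Fin 7) (e : Bool) :
    (NN k l a b τ g).rl (c, i) e = if c = decide (e = up i) then vr k l i else vl k l i := by
  fin_cases i <;> cases c <;> cases e <;>
    simp [NN, Nw.rl, hexN, vl, vr, up, lb, st6, ra6]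

theorem NN_pos (k l : ℤ) (a b τ g : ℂ) (c : Bool) (i : Fin 6) :
    (NN k l a b τ g).pos c i =
      if c = (![true, true, false, false, true, false] : Fin 6 → Bool) i
        then (![1, om, a, b, τ, g] : Fin 6 → ℂ) i
        else - (![1, om, a, b, τ, g] : Fin 6 → ℂ) i := by
  fin_cases i <;> cases c <;> simp [NN, hexN, pos6]

end Pool.Agent.Helper54.UN
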