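import Pool.Agent.Helper54.UN.A2

/-!
# Project UN, part (C): assembly, third part: the fields of the network
-/

set_option autoImplicit false

open Set Filter Topology
open scoped ComplexConjugate

noncomputable section

namespace Pool.Agent.Helper54.UN

open Pool.Agent.Helper71.UN

/-! ## Walls -/

/-- A wall with labels `L`, `R`, given by its start and displacement. -/
def WH (lam : ℂ → ℤ) (P d : ℂ) (L R : ℤ) : Prop :=
  ∀ t : ℝ, 0 < t → t < 1 → ∀ᶠ x in 𝓝 (P + t * d),
    (0 < hh d (x - P) → lam x = L) ∧ (hh d (x - P) < 0 → lam x = R)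

theorem WH_of_WL {lam : ℂ → ℤ} {A B : ℂ} {L R : ℤ} (h : WL lam A B L R) (hne : B - A ≠ 0) :
    WH lam A (B - A) L R := by
  intro t h0 h1
  filter_upwards [h t h0 h1] with x hx
  rw [hh_pos_iff hne, hh_neg_iff hne]
  exact hx

theorem WH_rev {lam : ℂ → ℤ} {P d : ℂ} {L R : ℤ} (h : WH lam P d L R) :
    WH lam (P + d) (-d) R L := by
  intro t h0 h1
  have h2 := h (1 - t) (by linarith) (by linarith)
  have e : P + ((1 - t : ℝ) : ℂ) * d = P + d + t * -d := by push_cast; ring
  rw [e] at h2
  filter_upwards [h2] with x hx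
  have e2 : hh (-d) (x - (P + d)) = - hh d (x - P) := by
    rw [hh_neg_left, ← hh_self_add d (x - (P + d))]
    congr 2
    ring
  rw [e2]
  exact ⟨fun k => hx.2 (by linarith), fun k => hx.1 (by linarith)⟩

theorem WH_neg {lam : ℂ → ℤ} {P d : ℂ} {L R : ℤ} (he : ∀ x, lam (-x) = lam x)
    (h : WH lam P d L R) : WH lam (-P) (-d) L R := by
  intro t h0 h1
  have h2 := h t h0 h1
  have e : -(-P + t * -d) = P + t * d := by ring
  rw [← e] at h2
  filter_upwards [ev_neg h2] with x hx
  have e2 : hh (-d) (x - -P) = hh d (-x - P) := by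
    rw [← hh_neg_neg d (-x - P)]
    congr 1
    ring
  rw [e2, ← he x]
  exact hx

theorem vBA_ne {a b τ g : ℂ} (hG : Geo a b τ g) (i : Fin 7) : vB a b i - vA τ i ≠ 0 := by
  have key : (vB a b i - vA τ i).re ≠ 0 := by
    fin_cases i
    · exact hG.d0.ne'
    · exact hG.d1.ne'
    · exact hG.d2.ne'
    · exact hG.d3.ne'
    · exact hG.d4.ne
    · exact hG.d5.ne
    · simp [vA, vB, om_re]; norm_num
  intro h
  rw [h] at key
  simp at key

theorem wall_all {k l : ℤ} {a b τ g : ℂ} (hG : Geo a b τ g) (hWLA : StWLA) (hWLB : StWLB)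
    (i : Fin 7) : WL (lamN k l a b τ) (vA τ i) (vB a b i) (vl k l i) (vr k l i) := by
  obtain ⟨h0, h1, h2, h3⟩ := hWLA k l a b τ g hG
  obtain ⟨h4, h5, h6⟩ := hWLB k l a b τ g hG
  fin_cases i
  · exact h0
  · exact h1
  · exact h2
  · exact h3
  · exact h4
  · exact h5
  · exact h6

theorem NN_wall {k l : ℤ} {a b τ g : ℂ} (hG : Geo a b τ g) (hWLA : StWLA) (hWLB : StWLB)
    (j : Bool × Fin 7) (e : Bool) :
    WH (lamN k l a b τ) ((NN k l a b τ g).sp j e) ((NN k l a b τ g).d j)
      ((NN k l a b τ g).ll j e) ((NN k l a b τ g).rl j e) := by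
  obtain ⟨c, i⟩ := j
  have hW := WH_of_WL (wall_all (k := k) (l := l) hG hWLA hWLB i) (vBA_ne hG i)
  have hev : ∀ x, lamN k l a b τ (-x) = lamN k l a b τ x := lam_even k l a b τ
  have hr := WH_rev hW
  rw [add_sub_cancel] at hr
  rw [NN_sp, NN_d, NN_ll, NN_rl]
  cases c <;> by_cases h : e = up i
  · simp only [h, if_true, if_false, Bool.false_eq_true, decide_true]
    exact hr
  · simp only [h, if_true, if_false, Bool.false_eq_true, decide_false]
    exact WH_neg hev hW
  · simp only [h, if_true, decide_true]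
    exact hW
  · simp only [h, if_true, if_false, decide_false, Bool.true_eq_false]
    have := WH_neg hev hr
    rw [neg_neg] at this
    exact this

end Pool.Agent.Helper54.UN
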