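import Pool.Agent.Helper54.UN.A3

/-!
# Project UN, part (C): assembly, fourth part: disjointness
-/

set_option autoImplicit false

open Set Filter Topology
open scoped ComplexConjugate

noncomputable section

namespace Pool.Agent.Helper54.UN

open Pool.Agent.Helper71.UN

/-- The upper vertices. -/
def vV (a b τ g : ℂ) (i : Fin 6) : ℂ := (![1, om, a, b, τ, g] : Fin 6 → ℂ) i

def ps (i : Fin 6) : Bool := (![true, true, false, false, true, false] : Fin 6 → Bool) i

theorem NN_pos' (k l : ℤ) (a b τ g : ℂ) (c : Bool) (i : Fin 6) :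
    (NN k l a b τ g).pos c i = if c = ps i then vV a b τ g i else - vV a b τ g i :=
  NN_pos k l a b τ g c i

theorem vV_im {a b τ g : ℂ} (hG : Geo a b τ g) (i : Fin 6) :
    0 ≤ (vV a b τ g i).im ∧ ((vV a b τ g i).im = 0 → i = 0) := by
  have h3 : 0 < Real.sqrt 3 := Real.sqrt_pos.2 (by norm_num)
  fin_cases i
  · simp [vV]
  · have e : (vV a b τ g ⟨1, by norm_num⟩).im = Real.sqrt 3 / 2 := rfl
    exact ⟨by rw [e]; positivity, fun h => absurd h (by rw [e]; positivity)⟩
  · exact ⟨hG.ia.le, fun h => absurd h hG.ia.ne'⟩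
  · exact ⟨hG.ib.le, fun h => absurd h hG.ib.ne'⟩
  · exact ⟨hG.it.le, fun h => absurd h hG.it.ne'⟩
  · exact ⟨hG.ig.le, fun h => absurd h hG.ig.ne'⟩

theorem vV_mem (a b τ g : ℂ) (i : Fin 6) :
    vV a b τ g i ∈ ({1, om, a, b, τ, g} : Set ℂ) := by
  fin_cases i <;> simp [vV]

theorem NN_inj {k l : ℤ} {a b τ g : ℂ} (hG : Geo a b τ g) (hAVD : StAVD)
    (c : Bool) (i : Fin 6) (c' : Bool) (i' : Fin 6)
    (h : (NN k l a b τ g).pos c i = (NN k l a b τ g).pos c' i') : c = c' ∧ i = i' := by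
  have h2 := (hAVD a b τ g hG).2
  have k1 := vV_im hG i
  have k2 := vV_im hG i'
  rw [NN_pos', NN_pos'] at h
  have same : vV a b τ g i = vV a b τ g i' → i = i' := h2 i i'
  have opp : vV a b τ g i ≠ - vV a b τ g i' := by
    intro e
    have e2 := congrArg Complex.im e
    rw [Complex.neg_im] at e2
    have i0 := k1.2 (by linarith [k1.1, k2.1])
    have i0' := k2.2 (by linarith [k1.1, k2.1])
    subst i0 i0'
    have e3 := congrArg Complex.re e
    simp [vV] at e3
    norm_num at e3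
  by_cases p : c = ps i <;> by_cases p' : c' = ps i'
  · simp only [p, p', if_true] at h
    have := same h
    subst this
    exact ⟨by rw [p, p'], rfl⟩
  · simp only [p, p', if_true, if_false] at h
    exact absurd h opp
  · simp only [p, p', if_true, if_false] at h
    exact absurd (neg_eq_iff_eq_neg.1 h) opp
  · simp only [p, p', if_false] at h
    have := same (neg_injective h)
    subst this
    refine ⟨?_, rfl⟩
    revert p p'
    cases c <;> cases c' <;> cases ps i <;> simp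

/-- All wall points. -/
theorem NN_pt2 (k l : ℤ) (a b τ g : ℂ) (j : Bool × Fin 7) (e : Bool) (t : ℝ) (h0 : 0 < t)
    (h1 : t < 1) : ∃ u : ℝ, 0 < u ∧ u < 1 ∧
      (NN k l a b τ g).sp j e + t * (NN k l a b τ g).d j =
        if e = up j.2 then vA τ j.2 + u * (vB a b j.2 - vA τ j.2)
        else -(vA τ j.2 + u * (vB a b j.2 - vA τ j.2)) := by
  obtain ⟨c, i⟩ := j
  rw [NN_pt]
  cases c <;> by_cases h : e = up i
  · refine ⟨1 - t, by linarith, by linarith, ?_⟩
    simp [h]
  · refine ⟨t, h0, h1, ?_⟩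
    simp [h]
  · refine ⟨t, h0, h1, ?_⟩
    simp [h]
  · refine ⟨1 - t, by linarith, by linarith, ?_⟩
    simp [h]

theorem NN_avoid {k l : ℤ} {a b τ g : ℂ} (hG : Geo a b τ g) (hAVD : StAVD) (hDSJ : StDSJ)
    (j : Bool × Fin 7) (e : Bool) (c : Bool) (i : Fin 6) (t : ℝ) (h0 : 0 < t) (h1 : t < 1) :
    (NN k l a b τ g).sp j e + t * (NN k l a b τ g).d j ≠ (NN k l a b τ g).pos c i := by
  obtain ⟨u, u0, u1, hu⟩ := NN_pt2 k l a b τ g j e t h0 h1
  rw [hu, NN_pos']
  have a1 := (hAVD a b τ g hG).1 j.2 u u0 u1 _ (vV_mem a b τ g i)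
  have a2 := (hDSJ a b τ g hG).1 j.2 u u0 u1
  have a3 := (vV_im hG i).1
  have opp : vA τ j.2 + u * (vB a b j.2 - vA τ j.2) ≠ - vV a b τ g i := by
    intro e
    rw [e, Complex.neg_im] at a2
    linarith
  by_cases p : e = up j.2 <;> by_cases p' : c = ps i
  · simp only [p, p', if_true]
    exact a1
  · simp only [p, p', if_true, if_false]
    exact opp
  · simp only [p, p', if_true, if_false]
    exact fun h => opp (neg_eq_iff_eq_neg.1 h)
  · simp only [p, p', if_false]
    exact fun h => a1 (neg_injective h)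

theorem NN_disj {k l : ℤ} {a b τ g : ℂ} (hG : Geo a b τ g) (hDSJ : StDSJ)
    (j : Bool × Fin 7) (e : Bool) (j' : Bool × Fin 7) (e' : Bool) (t t' : ℝ) (h0 : 0 < t)
    (h1 : t < 1) (h0' : 0 < t') (h1' : t' < 1)
    (h : (NN k l a b τ g).sp j e + t * (NN k l a b τ g).d j =
      (NN k l a b τ g).sp j' e' + t' * (NN k l a b τ g).d j') :
    e' = e ∧ (j' = j ∨ j' = (NN k l a b τ g).op j) := by
  obtain ⟨u, u0, u1, hu⟩ := NN_pt2 k l a b τ g j e t h0 h1
  obtain ⟨u', u0', u1', hu'⟩ := NN_pt2 k l a b τ g j' e' t' h0' h1'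
  rw [hu, hu'] at h
  have a2 := (hDSJ a b τ g hG).1 j.2 u u0 u1
  have a3 := (hDSJ a b τ g hG).1 j'.2 u' u0' u1'
  have same := (hDSJ a b τ g hG).2 j.2 j'.2 u u' u0 u1 u0' u1'
  have opp : vA τ j.2 + u * (vB a b j.2 - vA τ j.2) ≠
      -(vA τ j'.2 + u' * (vB a b j'.2 - vA τ j'.2)) := by
    intro e
    rw [e, Complex.neg_im] at a2
    linarith
  have fin : j.2 = j'.2 → (e = up j.2 ↔ e' = up j'.2) →
      e' = e ∧ (j' = j ∨ j' = (NN k l a b τ g).op j) := by
    intro h2 h3
    obtain ⟨c, i⟩ := j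
    obtain ⟨c', i'⟩ := j'
    simp only at h2 h3
    subst h2
    refine ⟨?_, ?_⟩
    · revert h3
      cases e <;> cases e' <;> cases up i <;> simp
    · cases c <;> cases c' <;> simp [NN, hexN]
  by_cases p : e = up j.2 <;> by_cases p' : e' = up j'.2
  · simp only [p, p', if_true] at h
    exact fin (same h) (by simp [p, p'])
  · simp only [p, p', if_true, if_false] at h
    exact absurd h opp
  · simp only [p, p', if_true, if_false] at h
    exact absurd (neg_eq_iff_eq_neg.1 h) opp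
  · simp only [p, p', if_false] at h
    exact fin (same (neg_injective h)) (by simp [p, p'])

end Pool.Agent.Helper54.UN
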