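import Pool.Agent.Helper54.UN.A4

/-!
# Project UN, part (C): assembly, fifth part: vertices, the network
-/

set_option autoImplicit false

open Set Filter Topology
open scoped ComplexConjugate

noncomputable section

namespace Pool.Agent.Helper54.UN

open Pool.Agent.Helper71.UN

theorem NN_nu_true (k l : ℤ) (a b τ g : ℂ) (i : Fin 6) (z : ℂ) :
    (NN k l a b τ g).nu true i z = lb k l (st6 (stN a b τ z) i) := by
  simp [NN, hexN, stz_eq]

theorem NN_nu_false (k l : ℤ) (a b τ g : ℂ) (i : Fin 6) (z : ℂ) :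
    (NN k l a b τ g).nu false i z = lb k l (st6 (stN a b τ (-z)) i) := by
  simp [NN, hexN, stz_eq]

theorem NN_pos_false (k l : ℤ) (a b τ g : ℂ) (i : Fin 6) :
    (NN k l a b τ g).pos false i = - (NN k l a b τ g).pos true i := by
  simp [NN, hexN]

theorem NN_vert_true {k l : ℤ} {a b τ g : ℂ} (hG : Geo a b τ g) (hVEL : StVEL) (hVEK : StVEK)
    (hVEI : StVEI) (hVEO : StVEO) (hVET : StVET) (i : Fin 6) : ∀ᶠ z in 𝓝 (0 : ℂ),
    (∀ m : Fin 7, (ra6 m = i ∨ rb6 m = i) → ofr (d6 1 a b τ (-g) m) z) →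
    lamN k l a b τ ((NN k l a b τ g).pos true i + z) = lb k l (st6 (stN a b τ z) i) := by
  have e0 : (NN k l a b τ g).pos true 0 = 1 := by simp [NN, hexN, pos6]
  have e1 : (NN k l a b τ g).pos true 1 = om := by simp [NN, hexN, pos6]
  have e2 : (NN k l a b τ g).pos true 2 = -a := by simp [NN, hexN, pos6]
  have e3 : (NN k l a b τ g).pos true 3 = -b := by simp [NN, hexN, pos6]
  have e4 : (NN k l a b τ g).pos true 4 = τ := by simp [NN, hexN, pos6]
  have e5 : (NN k l a b τ g).pos true 5 = -g := by simp [NN, hexN, pos6]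
  fin_cases i
  · filter_upwards [hVEL k l a b τ g hG] with z hz h
    have h4 := h 4 (Or.inl rfl)
    have h5 := h 5 (Or.inl rfl)
    have h6 := h 6 (Or.inl rfl)
    rw [d6_4] at h4
    rw [d6_5] at h5
    rw [d6_6] at h6
    have := hz h4 h5 h6
    rw [← e0] at this
    exact this
  · filter_upwards [hVEK k l a b τ g hG] with z hz h
    have h4 := h 1 (Or.inl rfl)
    have h5 := h 2 (Or.inl rfl)
    have h6 := h 6 (Or.inr rfl)
    rw [d6_1] at h4
    rw [d6_2] at h5
    rw [d6_6] at h6
    have := hz h4 h5 h6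
    rw [← e1] at this
    exact this
  · filter_upwards [hVEI k l a b τ g hG] with z hz h
    have h4 := h 0 (Or.inl rfl)
    have h5 := h 1 (Or.inr rfl)
    have h6 := h 5 (Or.inr rfl)
    rw [d6_0] at h4
    rw [d6_1] at h5
    rw [d6_5] at h6
    have := hz h4 h5 h6
    rw [← e2] at this
    exact this
  · filter_upwards [hVEO k l a b τ g hG] with z hz h
    have h4 := h 2 (Or.inr rfl)
    have h5 := h 3 (Or.inl rfl)
    have h6 := h 4 (Or.inr rfl)
    rw [d6_2] at h4
    rw [d6_3] at h5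
    rw [d6_4] at h6
    have := hz h4 h5 h6
    rw [← e3] at this
    exact this
  · filter_upwards [(hVET k l a b τ g hG).1] with z hz h
    have h4 := h 0 (Or.inr rfl)
    have h5 := h 3 (Or.inr rfl)
    rw [d6_0] at h4
    rw [d6_3] at h5
    have := hz h4 h5
    rw [← e4] at this
    exact this
  · filter_upwards [(hVET k l a b τ g hG).2] with z hz h
    have := hz
    rw [← e5] at this
    exact this

theorem NN_vert {k l : ℤ} {a b τ g : ℂ} (hG : Geo a b τ g) (hVEL : StVEL) (hVEK : StVEK)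
    (hVEI : StVEI) (hVEO : StVEO) (hVET : StVET) (c : Bool) (i : Fin 6) :
    ∀ᶠ z in 𝓝 (0 : ℂ), (∀ j, (NN k l a b τ g).cls j = c →
      ((NN k l a b τ g).ra j = i ∨ (NN k l a b τ g).rb j = i) →
      ¬ (hh ((NN k l a b τ g).d j) z = 0 ∧ 0 ≤ tt ((NN k l a b τ g).d j) z)) →
      (NN k l a b τ g).lam ((NN k l a b τ g).pos c i + z) = (NN k l a b τ g).nu c i z := by
  have main := NN_vert_true (k := k) (l := l) hG hVEL hVEK hVEI hVEO hVET i
  cases c
  · have m2 := ev_neg (x := (0 : ℂ)) (by rw [neg_zero]; exact main)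
    filter_upwards [m2] with z hz h
    rw [NN_nu_false, NN_pos_false]
    have h3 := hz (fun m hm => by
      have h4 := h (false, m) rfl (by
        rcases hm with hm | hm
        · exact Or.inr hm
        · exact Or.inl hm)
      have e : (NN k l a b τ g).d (false, m) = - d6 1 a b τ (-g) m := by simp [NN, hexN]
      rw [e] at h4
      unfold ofr
      rw [← hh_neg_neg, ← tt_neg_neg, neg_neg]
      exact h4)
    rw [← h3, ← lam_even]
    change lamN k l a b τ _ = _
    congr 1
    ring
  · filter_upwards [main] with z hz h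
    rw [NN_nu_true]
    exact hz (fun m hm => h (true, m) rfl hm)

theorem seg_neg {A B x : ℂ} (h : -x ∈ segment ℝ A B) : x ∈ segment ℝ (-A) (-B) := by
  obtain ⟨u, v, h1, h2, h3, h4⟩ := h
  refine ⟨u, v, h1, h2, h3, ?_⟩
  rw [smul_neg, smul_neg, ← neg_add, h4, neg_neg]

theorem NN_seg {k l : ℤ} {a b τ g : ℂ} (j : Bool × Fin 7) (e : Bool) (x : ℂ) :
    x ∈ segment ℝ ((NN k l a b τ g).sp j e) ((NN k l a b τ g).sp j e + (NN k l a b τ g).d j) ↔
      if e = up j.2 then x ∈ segment ℝ (vA τ j.2) (vB a b j.2)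
      else -x ∈ segment ℝ (vA τ j.2) (vB a b j.2) := by
  have s1 : ∀ A B y : ℂ, y ∈ segment ℝ (-A) (-B) ↔ -y ∈ segment ℝ A B := by
    intro A B y
    constructor
    · intro h
      have := seg_neg (A := -A) (B := -B) (x := -y) (by rw [neg_neg]; exact h)
      rwa [neg_neg, neg_neg] at this
    · exact seg_neg
  obtain ⟨c, i⟩ := j
  rw [NN_sp, NN_d]
  cases c <;> by_cases h : e = up i
  · simp only [h, if_true, if_false, Bool.false_eq_true]
    rw [show vB a b i + -(vB a b i - vA τ i) = vA τ i by ring, segment_symm]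
  · simp only [h, if_false, Bool.false_eq_true]
    rw [show -vA τ i + -(vB a b i - vA τ i) = - vB a b i by ring, s1]
  · simp only [h, if_true]
    rw [show vA τ i + (vB a b i - vA τ i) = vB a b i by ring]
  · simp only [h, if_true, if_false]
    rw [show -vB a b i + (vB a b i - vA τ i) = - vA τ i by ring, s1, segment_symm]

theorem NN_off {k l : ℤ} {a b τ g : ℂ} (hG : Geo a b τ g) (hO : StOFF) (x : ℂ)
    (hx : ∀ j e, x ∉ segment ℝ ((NN k l a b τ g).sp j e)
      ((NN k l a b τ g).sp j e + (NN k l a b τ g).d j)) :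
    ∀ᶠ y in 𝓝 x, lamN k l a b τ y = lamN k l a b τ x := by
  refine hO k l a b τ g hG x (fun i => ⟨?_, ?_⟩)
  · have h := hx (true, i) (up i)
    rw [NN_seg] at h
    simpa using h
  · have h := hx (true, i) (!(up i))
    rw [NN_seg] at h
    have e : (!(up i)) ≠ up i := by cases up i <;> simp
    simpa [e] using h

end Pool.Agent.Helper54.UN
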