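import Pool.Agent.Helper54.UN.A5

/-!
# Project UN, part (C): assembly, sixth part: the normalised network and the scaling
-/

set_option autoImplicit false

open Set Filter Topology
open scoped ComplexConjugate

noncomputable section

namespace Pool.Agent.Helper54.UN

open Pool.Agent.Helper71.UN

theorem lb_ne {k l : ℤ} (k0 : k ≠ 0) (k1 : k ≠ 1) (l0 : l ≠ 0) (l1 : l ≠ 1) (kl : k ≠ l)
    (i j : Fin 4) (h : i ≠ j) : lb k l i ≠ lb k l j := by
  fin_cases i <;> fin_cases j <;> simp [lb] at h ⊢ <;>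
    first | assumption | exact k0.symm | exact k1.symm | exact l0.symm | exact l1.symm |
      exact kl.symm

theorem NN_ok {η : ℝ} {k l : ℤ} {a b τ : ℂ} {s θ r₁ r₂ : ℝ} {σ : ℚ} (k0 : k ≠ 0) (k1 : k ≠ 1)
    (l0 : l ≠ 0) (l1 : l ≠ 1) (kl : k ≠ l) (hη : 0 < η) (hη2 : η ≤ 1 / 100)
    (hC : Cf1 η a b τ s θ) (σ0 : 0 < σ) (σ1 : σ < 1)
    (hG : Geo a b τ (b - (σ : ℂ) * (1 + b)))
    (hr : 1 + η < r₂) (hin : ∀ x, ‖x‖ ≤ r₁ → inH a x) (hout : ∀ x, r₂ ≤ ‖x‖ → ouH b x)
    (hOFU : StOFU) (hELZ : StELZ) (hFAR : StFAR) (hWLA : StWLA) (hWLB : StWLB) (hDSJ : StDSJ)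
    (hAVD : StAVD) (hVEL : StVEL) (hVEK : StVEK) (hVEI : StVEI) (hVEO : StVEO) (hVET : StVET)
    (hNIN : StNIN) : NwOK (NN k l a b τ (b - (σ : ℂ) * (1 + b))) {0, 1, k, l} r₁ r₂ := by
  obtain ⟨n1, n2, n3⟩ := hNIN η a b τ s θ hη hη2 hC σ σ0 σ1 hG
  have hvne := vBA_ne hG
  have hd : ∀ j, (NN k l a b τ (b - (σ : ℂ) * (1 + b))).d j ≠ 0 := by
    rintro ⟨c, i⟩
    rw [NN_d]
    cases c
    · simpa using neg_ne_zero.2 (hvne i)
    · simpa using hvne i
  have hlb := lb_ne k0 k1 l0 l1 kl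
  have nout : ∀ x, ¬ inH a x → r₁ < ‖x‖ := fun x hx => by
    by_contra h
    exact hx (hin x (not_lt.1 h))
  have inneg : ∀ x, inH a (-x) → inH a x := by
    intro x h
    unfold inH at h ⊢
    rw [neg_neg] at h
    exact ⟨h.2, h.1⟩
  have hO := hOFF hOFU hELZ hFAR
  constructor
  · exact hd
  · rintro ⟨c, i⟩
    fin_cases i <;> cases c <;> simp [NN, hexN, ra6, rb6]
  · rintro ⟨c, i⟩
    fin_cases i <;> cases c <;> simp only [NN, hexN, if_true, if_false, Bool.false_eq_true] <;>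
      exact hlb _ _ (by decide)
  · rintro ⟨c, i⟩
    fin_cases i <;> cases c <;> simp [NN, hexN, e6]
  · rintro ⟨c, i⟩
    simp [NN, hexN]
  · rintro ⟨c, i⟩
    cases c <;> simp [NN, hexN]
  · rintro ⟨c, i⟩ e
    have h1 : (NN k l a b τ (b - (σ : ℂ) * (1 + b))).op (c, i) = (!c, i) := rfl
    rw [h1, NN_sp, NN_sp, NN_d]
    cases c <;> by_cases h : e = up i <;> simp [h] <;> try ring
  · rintro ⟨c, i⟩
    cases c <;> simp [NN, hexN]
  · rintro ⟨c, i⟩
    cases c <;> simp [NN, hexN]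
  · intro c i c' i' h
    exact NN_inj hG hAVD c i c' i' h
  · intro j e c i t h0 h1
    exact NN_avoid hG hAVD hDSJ j e c i t h0 h1
  · intro j e j' e' t t' h0 h1 h0' h1' h
    exact NN_disj hG hDSJ j e j' e' t t' h0 h1 h0' h1' h
  · intro j e t h0 h1
    exact NN_wall hG hWLA hWLB j e t h0 h1
  · intro c i
    exact NN_vert hG hVEL hVEK hVEI hVEO hVET c i
  · intro x hx
    exact NN_off hG hO x hx
  · intro x
    change lamN k l a b τ x ∈ _
    unfold lamN
    split_ifs <;> simp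
  · intro x hx
    exact lam_in (hin x hx.le)
  · intro x hx
    have h1 := ((hFAR a b τ _ hG x).2.2 (hout x hx.le)).self_of_nhds
    exact lam_out h1.1 h1.2
  · intro j e x hx
    rw [NN_seg] at hx
    by_cases h : e = up j.2
    · rw [if_pos h] at hx
      obtain ⟨m1, m2⟩ := n1 j.2 x hx
      exact ⟨nout x m1, by linarith⟩
    · rw [if_neg h] at hx
      obtain ⟨m1, m2⟩ := n1 j.2 (-x) hx
      have m3 := nout (-x) m1
      rw [norm_neg] at m2 m3
      exact ⟨m3, by linarith⟩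
  · intro c i
    have key : ∀ i, ¬ inH a (vV a b τ (b - (σ : ℂ) * (1 + b)) i) ∧
        ‖vV a b τ (b - (σ : ℂ) * (1 + b)) i‖ ≤ 1 + η := by
      intro i
      fin_cases i
      · exact n1 4 1 (left_mem_segment ℝ _ _)
      · exact n1 1 om (left_mem_segment ℝ _ _)
      · exact n1 0 a (right_mem_segment ℝ _ _)
      · exact n1 3 b (right_mem_segment ℝ _ _)
      · exact n1 0 τ (left_mem_segment ℝ _ _)
      · exact ⟨n2, n3⟩
    obtain ⟨m1, m2⟩ := key i
    have m3 := nout _ m1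
    rw [NN_pos']
    by_cases h : c = ps i
    · rw [if_pos h]
      exact ⟨m3, by linarith⟩
    · rw [if_neg h, norm_neg]
      exact ⟨m3, by linarith⟩

theorem dt_mul (v p q : ℂ) : dt (v * p) (v * q) = ‖v‖ ^ 2 * dt p q := by
  have h : ‖v‖ ^ 2 = v.re * v.re + v.im * v.im := by
    rw [← Complex.normSq_eq_norm_sq, Complex.normSq_apply]
  rw [h, dt_eq, dt_eq]
  simp only [Complex.mul_re, Complex.mul_im]
  ring

theorem hh_mul {v : ℂ} (hv : v ≠ 0) (d z : ℂ) : hh (v * d) (v * z) = ‖v‖ * hh d z := by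
  have h := dt_mul v d z
  have h2 : ‖v‖ ≠ 0 := norm_ne_zero_iff.2 hv
  unfold dt at h
  unfold hh
  rw [h, norm_mul]
  by_cases hd : ‖d‖ = 0
  · simp [hd]
  · field_simp

theorem Cf1_of {Γ : ℤ → ℂ → Prop} {η : ℝ} {k l : ℤ} {v a b τ : ℂ} {s θ : ℝ}
    (h : Cfg Γ η k l v a b τ s θ) : Cf1 η (a / v) (b / v) (τ / v) s θ := by
  have hv := h.nz
  have hn : 0 < ‖v‖ := norm_pos_iff.2 hv
  have ea : a = v * (a / v) := by field_simp
  have eb : b = v * (b / v) := by field_simp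
  have et : τ = v * (τ / v) := by field_simp
  have hn2 : 0 < ‖v‖ ^ 2 := by positivity
  generalize a / v = A at *
  generalize b / v = B at *
  generalize τ / v = T at *
  subst ea eb et
  have c1 := h.ha
  have c2 := h.ha'
  have c3 := h.h1
  have c4 := h.h2
  have c5 := h.h3
  have c6 := h.hτ
  rw [show v * A - (v + om * v) = v * (A - (1 + om)) by ring, norm_mul] at c1
  rw [show v * B - (v + om * v) = v * (B - (1 + om)) by ring, norm_mul] at c2
  rw [show v * A - om * v = v * (A - om) by ring, show v * B - v * A = v * (B - A) by ring,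
    dt_mul] at c3
  rw [show v * A - v = v * (A - 1) by ring, show v * B - v * A = v * (B - A) by ring,
    dt_mul] at c4
  rw [show v + om * v = v * (1 + om) by ring, show v * B - v * A = v * (B - A) by ring,
    dt_mul] at c5
  refine ⟨?_, ?_, ?_, ?_, ?_, h.s0, h.s1, h.θ0, h.θ1, ?_⟩
  · rw [mul_comm] at c1
    exact le_of_mul_le_mul_right c1 hn
  · rw [mul_comm] at c2
    exact le_of_mul_le_mul_right c2 hn
  · exact (mul_pos_iff_of_pos_left hn2).1 c3
  · exact (mul_pos_iff_of_pos_left hn2).1 c4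
  · exact (mul_pos_iff_of_pos_left hn2).1 c5
  · apply mul_left_cancel₀ hv
    rw [c6]
    ring

end Pool.Agent.Helper54.UN
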