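import Pool.Agent.Helper54.UN.A6

/-!
# Project UN, part (C): the theorem `StHEX` from the modules
-/

set_option autoImplicit false

open Set Filter Topology
open scoped ComplexConjugate

noncomputable section

namespace Pool.Agent.Helper54.UN

open Pool.Agent.Helper71.UN

theorem fstA_congr {d d' : ℕ → ℂ} {z z' : ℂ} (h : ∀ i, hh (d' i) z' ≤ 0 ↔ hh (d i) z ≤ 0)
    (i m : ℕ) : fstA d' i m z' = fstA d i m z := by
  induction m generalizing i with
  | zero => simp [fstA]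
  | succ m ih => simp only [fstA, h, ih]

theorem fstB_congr {d d' : ℕ → ℂ} {z z' : ℂ} (h : ∀ i, 0 ≤ hh (d' i) z' ↔ 0 ≤ hh (d i) z)
    (i m : ℕ) : fstB d' i m z' = fstB d i m z := by
  induction m generalizing i with
  | zero => simp [fstB]
  | succ m ih => simp only [fstB, h, ih]

theorem pos6_mul (v a b τ h : ℂ) (i : Fin 6) :
    pos6 v (v * a) (v * b) (v * τ) (v * h) i = v * pos6 1 a b τ h i := by
  fin_cases i <;> simp [pos6]; ring

theorem d6_mul (v a b τ h : ℂ) (j : Fin 7) :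
    d6 v (v * a) (v * b) (v * τ) (v * h) j = v * d6 1 a b τ h j := by
  unfold d6
  rw [pos6_mul, pos6_mul]
  ring

theorem hh_mul_le {v : ℂ} (hv : v ≠ 0) (d z : ℂ) : hh (v * d) (v * z) ≤ 0 ↔ hh d z ≤ 0 := by
  rw [hh_mul hv]
  have h : 0 < ‖v‖ := norm_pos_iff.2 hv
  constructor
  · intro h1
    by_contra h2
    exact absurd h1 (not_le.2 (mul_pos h (not_le.1 h2)))
  · intro h1
    exact mul_nonpos_of_nonneg_of_nonpos h.le h1

theorem hh_mul_ge {v : ℂ} (hv : v ≠ 0) (d z : ℂ) : 0 ≤ hh (v * d) (v * z) ↔ 0 ≤ hh d z := by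
  rw [hh_mul hv]
  have h : 0 < ‖v‖ := norm_pos_iff.2 hv
  exact mul_nonneg_iff_of_pos_left h

theorem stz_mul {v : ℂ} (hv : v ≠ 0) (a b τ h z : ℂ) :
    stz6 v (v * a) (v * b) (v * τ) (v * h) (v * z) = stz6 1 a b τ h z := by
  have hn : 0 < ‖v‖ ^ 2 := by have := norm_pos_iff.2 hv; positivity
  have hA : fstA (dA6 v (v * a) (v * b) (v * τ) (v * h)) 0 4 (v * z) =
      fstA (dA6 1 a b τ h) 0 4 z := by
    apply fstA_congr
    intro i
    unfold dA6
    rw [d6_mul]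
    exact hh_mul_le hv _ _
  have hB : fstB (dB6 v (v * a) (v * b) (v * τ) (v * h)) 0 3 (v * z) =
      fstB (dB6 1 a b τ h) 0 3 z := by
    apply fstB_congr
    intro i
    unfold dB6
    rw [d6_mul]
    exact hh_mul_ge hv _ _
  have hre : (0 < (v * z * conj v).re) ↔ (0 < (z * conj (1 : ℂ)).re) := by
    have e : (v * z * conj v).re = ‖v‖ ^ 2 * (z * conj (1 : ℂ)).re := by
      rw [← Complex.normSq_eq_norm_sq, Complex.normSq_apply]
      simp [Complex.mul_re, Complex.mul_im]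
      ring
    rw [e]
    exact mul_pos_iff_of_pos_left hn
  unfold stz6
  rw [hA, hB]
  by_cases hz : 0 < (z * conj (1 : ℂ)).re
  · rw [if_pos hz, if_pos (hre.2 hz)]
  · rw [if_neg hz, if_neg (fun h => hz (hre.1 h))]

theorem hHEX_of (hOFU : StOFU) (hELZ : StELZ) (hFAR : StFAR) (hWLA : StWLA)
    (hWLB : StWLB) (hDSJ : StDSJ) (hAVD : StAVD) (hVEL : StVEL) (hVEK : StVEK) (hVEI : StVEI)
    (hVEO : StVEO) (hVET : StVET) (hSG4 : StSG4) (hRAD : StRAD) (hNIN : StNIN)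
    (hSCL : StSCL) : StHEX := by
  intro κ h1 h2
  obtain ⟨η, r₁, r₂, η0, η1, r10, r2κ, hr, H⟩ := hRAD κ h1 h2
  refine ⟨η, η0, ?_⟩
  intro Γ k l v₀ a a' τ s θ hC
  have c := Cf1_of hC
  have hv := hC.nz
  have hn : 0 < ‖v₀‖ := norm_pos_iff.2 hv
  obtain ⟨σ, σ0, σ1, hG⟩ := hSG4 η _ _ _ s θ η1 c
  obtain ⟨H1, H2⟩ := H _ _ c.ha c.hb
  have hN := NN_ok (k := k) (l := l) hC.k0 hC.k1 hC.l0 hC.l1 hC.kl η0 η1 c σ0 σ1 hG hr H1 H2
    hOFU hELZ hFAR hWLA hWLB hDSJ hAVD hVEL hVEK hVEI hVEO hVET hNIN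
  refine ⟨σ, fun x => lamN k l (a / v₀) (a' / v₀) (τ / v₀) (x / v₀), ‖v₀‖ * r₁, ‖v₀‖ * r₂,
    σ0, σ1, by positivity, ?_, ?_⟩
  · calc ‖v₀‖ * r₂ < ‖v₀‖ * (κ * r₁) := by
          exact mul_lt_mul_of_pos_left r2κ hn
      _ = κ * (‖v₀‖ * r₁) := by ring
  · have ea : a = v₀ * (a / v₀) := by field_simp
    have eb : a' = v₀ * (a' / v₀) := by field_simp
    have et : τ = v₀ * (τ / v₀) := by field_simp
    generalize a / v₀ = A at *
    generalize a' / v₀ = B at *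
    generalize τ / v₀ = T at *
    subst ea eb et
    have eh : -(v₀ * B) + (σ : ℂ) * (v₀ + v₀ * B) = v₀ * -(B - (σ : ℂ) * (1 + B)) := by ring
    rw [eh]
    refine hSCL Bool (Bool × Fin 7) 6 (NN k l A B T (B - (σ : ℂ) * (1 + B))) _ {0, 1, k, l}
      r₁ r₂ v₀ hv hN ?_ rfl rfl rfl ?_ rfl rfl rfl rfl ?_ ?_
    · intro c i
      cases c <;> simp [NN, hexN, pos6_mul]
    · rintro ⟨c, i⟩
      cases c <;> simp [NN, hexN, d6_mul]
    · intro x
      change lamN k l A B T (v₀ * x / v₀) = lamN k l A B T x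
      rw [mul_div_cancel_left₀ _ hv]
    · intro c i z
      cases c
      · simp only [NN, hexN, Bool.false_eq_true, if_false]
        rw [← mul_neg, stz_mul hv]
      · simp only [NN, hexN, if_true]
        rw [stz_mul hv]

end Pool.Agent.Helper54.UN
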