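import Pool.Agent.Helper71.UN.Defs

/-!
# Project UN, part (C): geometry of the hexagon network.  Definitions

Normalised to `v₀ = 1`: the points are `1`, `om`, `a`, `b` (`= a'`), `τ`, `-1`, `-om` and the third far point `g`
(the copy `H` is at `-g`).  `lf p q x` is positive if `x` is on the left of the oriented line from `p` to `q`.
-/

set_option autoImplicit false

open Set Filter Topology
open scoped ComplexConjugate

noncomputable section

namespace Pool.Agent.Helper54.UN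

open Pool.Agent.Helper71.UN

/-- Positive if `x` is on the left of the line from `p` to `q`. -/
def lf (p q x : ℂ) : ℝ := dt (q - p) (x - p)

/-- Positive in the half plane which contains `1`, `a`, `b`, `τ`, `g`, `om`. -/
def el (x : ℂ) : ℝ := x.re + Real.sqrt 3 * x.im

/-- Inside of the inner hexagon `1, a, om, -1, -a, -om` (open). -/
def inH (a x : ℂ) : Prop :=
  (0 < lf 1 a x ∧ 0 < lf a om x ∧ 0 < lf om (-1) x) ∧
    (0 < lf 1 a (-x) ∧ 0 < lf a om (-x) ∧ 0 < lf om (-1) (-x))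

/-- Outside of the outer hexagon `1, b, om, -1, -b, -om` (open). -/
def ouH (b x : ℂ) : Prop :=
  (lf 1 b x < 0 ∨ lf b om x < 0 ∨ lf om (-1) x < 0) ∨
    (lf 1 b (-x) < 0 ∨ lf b om (-x) < 0 ∨ lf om (-1) (-x) < 0)

/-- Selects the region with the label `k` in the strip between the hexagons, upper half. -/
def isK (a b τ x : ℂ) : Prop := 0 < el x ∧ (lf a b x < 0 ∨ (0 < lf τ a x ∧ lf τ b x < 0))

open Classical in
/-- The label function (even). -/
def lamN (k l : ℤ) (a b τ x : ℂ) : ℤ :=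
  if inH a x then 0 else if ouH b x then 1 else if isK a b τ x ∨ isK a b τ (-x) then k else l

open Classical in
/-- The label function in the half plane `0 < el x`. -/
def lamU (k l : ℤ) (a b τ x : ℂ) : ℤ :=
  if 0 < lf 1 a x ∧ 0 < lf a om x ∧ 0 < lf om (-1) x ∧ 0 < lf (-om) 1 x then 0
  else if lf 1 b x < 0 ∨ lf b om x < 0 ∨ lf om (-1) x < 0 ∨ lf (-om) 1 x < 0 then 1
  else if lf a b x < 0 ∨ (0 < lf τ a x ∧ lf τ b x < 0) then k else l

/-- All the sign facts about the points `1, a, b, om, τ, -1, -om, g`. -/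
structure Geo (a b τ g : ℂ) : Prop where
  na1 : |a.re - 1 / 2| ≤ 1 / 50
  na2 : |a.im - Real.sqrt 3 / 2| ≤ 1 / 50
  nb1 : |b.re - 1 / 2| ≤ 1 / 50
  nb2 : |b.im - Real.sqrt 3 / 2| ≤ 1 / 50
  -- the directions of the rays `0, ..., 6`
  d0 : 0 < (a - τ).re
  d1 : 0 < (a - om).re
  d2 : 0 < (b - om).re
  d3 : 0 < (b - τ).re
  d4 : (b - 1).re < 0
  d5 : (a - 1).re < 0
  d6 : (-(1 + om)).re < 0
  t01 : 0 < dt (a - τ) (a - om)
  t12 : 0 < dt (a - om) (b - om)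
  t23 : 0 < dt (b - om) (b - τ)
  t02 : 0 < dt (a - τ) (b - om)
  t03 : 0 < dt (a - τ) (b - τ)
  t13 : 0 < dt (a - om) (b - τ)
  t45 : 0 < dt (b - 1) (a - 1)
  t04 : 0 < dt (a - τ) (b - 1)
  t05 : 0 < dt (a - τ) (a - 1)
  t14 : 0 < dt (a - om) (b - 1)
  t15 : 0 < dt (a - om) (a - 1)
  t24 : 0 < dt (b - om) (b - 1)
  t25 : 0 < dt (b - om) (a - 1)
  t34 : 0 < dt (b - τ) (b - 1)
  t35 : 0 < dt (b - τ) (a - 1)
  t46 : 0 < dt (b - 1) (-(1 + om))
  t56 : 0 < dt (a - 1) (-(1 + om))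
  t60 : 0 < dt (-(1 + om)) (a - τ)
  t61 : 0 < dt (-(1 + om)) (a - om)
  t62 : 0 < dt (-(1 + om)) (b - om)
  t63 : 0 < dt (-(1 + om)) (b - τ)
  -- `b - a` against the rays
  e0 : dt (b - a) (a - τ) < 0
  e1 : dt (b - a) (a - om) < 0
  e2 : dt (b - a) (b - om) < 0
  e3 : dt (b - a) (b - τ) < 0
  e4 : 0 < dt (b - a) (b - 1)
  e5 : 0 < dt (b - a) (a - 1)
  -- `lf 1 a`
  f5o : 0 < lf 1 a om
  f5t : 0 < lf 1 a τ
  f5b : lf 1 a b < 0
  f5g : lf 1 a g < 0
  f5n : 0 < lf 1 a (-1)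
  f5m : 0 < lf 1 a (-om)
  -- `lf a om`
  f1v : 0 < lf a om 1
  f1b : lf a om b < 0
  f1t : lf a om τ < 0
  f1n : 0 < lf a om (-1)
  f1m : 0 < lf a om (-om)
  -- `lf om (-1)`
  f6v : 0 < lf om (-1) 1
  f6a : 0 < lf om (-1) a
  f6b : 0 < lf om (-1) b
  f6t : 0 < lf om (-1) τ
  f6g : 0 < lf om (-1) g
  f6m : 0 < lf om (-1) (-om)
  -- `lf (-om) 1`
  f7o : 0 < lf (-om) 1 om
  f7a : 0 < lf (-om) 1 a
  f7b : 0 < lf (-om) 1 b
  f7t : 0 < lf (-om) 1 τ
  f7g : 0 < lf (-om) 1 g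
  f7n : 0 < lf (-om) 1 (-1)
  -- `lf 1 b`
  f4a : 0 < lf 1 b a
  f4o : 0 < lf 1 b om
  f4t : 0 < lf 1 b τ
  f4g : 0 < lf 1 b g
  f4n : 0 < lf 1 b (-1)
  f4m : 0 < lf 1 b (-om)
  -- `lf b om`
  f2a : 0 < lf b om a
  f2v : 0 < lf b om 1
  f2t : 0 < lf b om τ
  f2g : 0 < lf b om g
  f2n : 0 < lf b om (-1)
  f2m : 0 < lf b om (-om)
  -- `lf a b`
  gdv : lf a b 1 < 0
  gdo : 0 < lf a b om
  gdt : 0 < lf a b τ
  gdg : 0 < lf a b g
  -- `lf τ a`
  g0b : 0 < lf τ a b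
  g0o : lf τ a om < 0
  g0v : lf τ a 1 < 0
  g0g : 0 < lf τ a g
  -- `lf τ b`
  g3a : lf τ b a < 0
  g3o : 0 < lf τ b om
  g3v : lf τ b 1 < 0
  g3g : lf τ b g < 0
  -- `el`
  ev : 0 < el 1
  eo : 0 < el om
  ea : 0 < el a
  eb : 0 < el b
  et : 0 < el τ
  eg : 0 < el g
  -- imaginary parts
  ia : 0 < a.im
  ib : 0 < b.im
  it : 0 < τ.im
  ig : 0 < g.im
  -- `dt om`
  oa : dt om a < 0
  ob : dt om b < 0
  ot : dt om τ < 0
  og : dt om g < 0

/-! ## Elementary facts -/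

theorem dt_eq (p q : ℂ) : dt p q = p.re * q.im - p.im * q.re := by
  simp [dt, Complex.mul_im]; ring

theorem lf_eq (p q x : ℂ) :
    lf p q x = (q.re - p.re) * (x.im - p.im) - (q.im - p.im) * (x.re - p.re) := by
  simp [lf, dt_eq]

theorem hh_pos_iff {d z : ℂ} (hd : d ≠ 0) : 0 < hh d z ↔ 0 < dt d z := by
  unfold hh dt
  have h : 0 < ‖d‖ := norm_pos_iff.mpr hd
  rw [div_pos_iff]
  constructor
  · rintro (h1 | h1)
    · exact h1.1
    · linarith [h1.2]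
  · intro h1
    exact Or.inl ⟨h1, h⟩

theorem hh_neg_iff {d z : ℂ} (hd : d ≠ 0) : hh d z < 0 ↔ dt d z < 0 := by
  unfold hh dt
  have h : 0 < ‖d‖ := norm_pos_iff.mpr hd
  rw [div_neg_iff]
  constructor
  · rintro (h1 | h1)
    · linarith [h1.2]
    · exact h1.1
  · intro h1
    exact Or.inr ⟨h1, h⟩

theorem hh_zero_iff {d z : ℂ} (hd : d ≠ 0) : hh d z = 0 ↔ dt d z = 0 := by
  unfold hh dt
  have h : ‖d‖ ≠ 0 := (norm_pos_iff.mpr hd).ne'
  rw [div_eq_zero_iff]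
  tauto

theorem hh_le_iff (d z : ℂ) : hh d z ≤ 0 ↔ dt d z ≤ 0 := by
  by_cases hd : d = 0
  · subst hd
    simp [hh, dt]
  · rw [← not_lt, hh_pos_iff hd, not_lt]

theorem hh_ge_iff (d z : ℂ) : 0 ≤ hh d z ↔ 0 ≤ dt d z := by
  by_cases hd : d = 0
  · subst hd
    simp [hh, dt]
  · rw [← not_lt, hh_neg_iff hd, not_lt]

theorem om_re : om.re = -1 / 2 := rfl

theorem om_im : om.im = Real.sqrt 3 / 2 := rfl

theorem s3 : Real.sqrt 3 * Real.sqrt 3 = 3 := Real.mul_self_sqrt (by norm_num)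

theorem s3_gt : (173 / 100 : ℝ) < Real.sqrt 3 := by
  rw [Real.lt_sqrt (by norm_num)]; norm_num

theorem s3_lt : Real.sqrt 3 < (1733 / 1000 : ℝ) := by
  rw [Real.sqrt_lt (by norm_num) (by norm_num)]; norm_num

/-- `lf` is affine. -/
theorem lf_comb (p q A B : ℂ) (t : ℝ) :
    lf p q (A + t * (B - A)) = (1 - t) * lf p q A + t * lf p q B := by
  simp [lf_eq]; ring

theorem lf_start (p q : ℂ) : lf p q p = 0 := by simp [lf_eq]

theorem lf_end (p q : ℂ) : lf p q q = 0 := by simp [lf_eq]; ring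

theorem el_comb (A B : ℂ) (t : ℝ) : el (A + t * (B - A)) = (1 - t) * el A + t * el B := by
  simp [el]; ring

theorem continuous_lf (p q : ℂ) : Continuous (lf p q) := by
  have h : lf p q = fun x => (q.re - p.re) * (x.im - p.im) - (q.im - p.im) * (x.re - p.re) := by
    funext x; exact lf_eq p q x
  rw [h]
  fun_prop

theorem continuous_el : Continuous el := by
  unfold el
  fun_prop

/-- `z` is not on the closed ray of direction `d`. -/
def ofr (d z : ℂ) : Prop := ¬ (hh d z = 0 ∧ 0 ≤ tt d z)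

theorem ofr_ne {d z : ℂ} (h : ofr d z) : z ≠ 0 := by
  rintro rfl
  exact h ⟨by simp [hh], by simp [tt]⟩

theorem ofr_neg {d z : ℂ} (hd : 0 < d.re) (h : ofr d z) (h0 : dt d z = 0) : z.re < 0 := by
  have hdne : d ≠ 0 := by rintro rfl; simp at hd
  have h1 : ¬ (0 ≤ tt d z) := fun h2 => h ⟨(hh_zero_iff hdne).2 h0, h2⟩
  have h2 : tt d z < 0 := not_le.1 h1
  have h3 : (z * conj d).re < 0 := by
    unfold tt at h2
    have h : 0 < ‖d‖ := norm_pos_iff.mpr hdne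
    rcases div_neg_iff.1 h2 with h4 | h4
    · linarith [h4.2]
    · exact h4.1
  rw [dt_eq] at h0
  simp [Complex.mul_re] at h3
  have h4 : d.re * (z.re * d.re + z.im * d.im) < 0 := mul_neg_of_pos_of_neg hd h3
  have h5 : d.re * (z.re * d.re + z.im * d.im) = z.re * (d.re ^ 2 + d.im ^ 2) := by
    linear_combination d.im * h0
  rw [h5] at h4
  have h6 : 0 < d.re ^ 2 + d.im ^ 2 := by positivity
  by_contra h7
  exact absurd h4 (not_lt.2 (mul_nonneg (not_lt.1 h7) h6.le))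

theorem ofr_pos {d z : ℂ} (hd : d.re < 0) (h : ofr d z) (h0 : dt d z = 0) : 0 < z.re := by
  have hdne : d ≠ 0 := by rintro rfl; simp at hd
  have h1 : ¬ (0 ≤ tt d z) := fun h2 => h ⟨(hh_zero_iff hdne).2 h0, h2⟩
  have h2 : tt d z < 0 := not_le.1 h1
  have h3 : (z * conj d).re < 0 := by
    unfold tt at h2
    have h : 0 < ‖d‖ := norm_pos_iff.mpr hdne
    rcases div_neg_iff.1 h2 with h4 | h4
    · linarith [h4.2]
    · exact h4.1
  rw [dt_eq] at h0
  simp [Complex.mul_re] at h3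
  have h4 : 0 < d.re * (z.re * d.re + z.im * d.im) := mul_pos_of_neg_of_neg hd h3
  have h5 : d.re * (z.re * d.re + z.im * d.im) = z.re * (d.re ^ 2 + d.im ^ 2) := by
    linear_combination d.im * h0
  rw [h5] at h4
  have h8 : 0 < d.re ^ 2 := by have := mul_pos_of_neg_of_neg hd hd; nlinarith
  have h6 : 0 < d.re ^ 2 + d.im ^ 2 := by positivity
  by_contra h7
  exact absurd h4 (not_lt.2 (mul_nonpos_of_nonpos_of_nonneg (not_lt.1 h7) h6.le))

/-- Identity of Pluecker. -/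
theorem plu (p q z : ℂ) : dt p q * z.re = - dt q z * p.re + dt p z * q.re := by
  simp only [dt_eq]; ring

theorem plu3 (p q r z : ℂ) : dt p q * dt r z = - dt q z * dt r p + dt p z * dt r q := by
  simp only [dt_eq]; ring

end Pool.Agent.Helper54.UN
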