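import Pool.Agent.Helper54.UN.A7
import Pool.Agent.Helper13.UNC.IOH
import Pool.Agent.Helper54.UNC.ELZ
import Pool.Agent.Helper51.UNC.WLA
import Pool.Agent.Helper33.UNC.WLB
import Pool.Agent.Helper97.UNC.DSJ
import Pool.Agent.Helper64.UNC.AVD
import Pool.Agent.Helper54.UNC.FAR
import Pool.Agent.Helper99.UNC.SEGM
import Pool.Agent.Helper47.UNC.OFU
import Pool.Agent.Helper15.UNC.VEL
import Pool.Agent.Helper9.UNC.VEK
import Pool.Agent.Helper37.UNC.VEI
import Pool.Agent.Helper31.UNC.VEO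
import Pool.Agent.Helper31.UNC.VET
import Pool.Agent.Helper42.UNC.SG1
import Pool.Agent.Helper21.UNC.SG2
import Pool.Agent.Helper21.UNC.SG3
import Pool.Agent.Helper31.UNC.SG4
import Pool.Agent.Helper40.UNC.RAD
import Pool.Agent.Helper58.UNC.NIN
import Pool.Agent.Helper11.UNC.SCL

/-!
# Project UN, part (C): the theorem `StHEX` without hypotheses
-/

set_option autoImplicit false

noncomputable section

namespace Pool.Agent.Helper54.UN

open Pool.Agent.Helper71.UN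

theorem pU : StU := hU Pool.Agent.Helper13.UNC.hIOH

theorem pHEX : StHEX :=
  hHEX_of
    (Pool.Agent.Helper47.UNC.hOFU pU Pool.Agent.Helper13.UNC.hIOH Pool.Agent.Helper54.UNC.hFAR
      Pool.Agent.Helper99.UNC.hSEGM)
    Pool.Agent.Helper54.UNC.hELZ Pool.Agent.Helper54.UNC.hFAR
    (Pool.Agent.Helper51.UNC.hWLA pU) (Pool.Agent.Helper33.UNC.hWLB pU)
    Pool.Agent.Helper97.UNC.hDSJ Pool.Agent.Helper64.UNC.hAVD
    (Pool.Agent.Helper15.UNC.hVEL pU) (Pool.Agent.Helper9.UNC.hVEK pU)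
    (Pool.Agent.Helper37.UNC.hVEI pU) (Pool.Agent.Helper31.UNC.hVEO pU)
    (Pool.Agent.Helper31.UNC.hVET pU)
    (Pool.Agent.Helper31.UNC.hSG4 Pool.Agent.Helper42.UNC.hSG1
      (Pool.Agent.Helper21.UNC.hSG2 Pool.Agent.Helper42.UNC.hSG1)
      (Pool.Agent.Helper21.UNC.hSG3 Pool.Agent.Helper42.UNC.hSG1))
    Pool.Agent.Helper40.UNC.hRAD Pool.Agent.Helper58.UNC.hNIN Pool.Agent.Helper11.UNC.hSCL

end Pool.Agent.Helper54.UN
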