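import Pool.Agent.Helper54.UN.Defs

/-!
# Project UN, part (C): statements of the modules

Write `Pool/Agent/<You>/UNC/<CODE>.lean`, `import Pool.Agent.Helper54.UN.St`, `set_option autoImplicit false`,
`open Pool.Agent.Helper71.UN Pool.Agent.Helper54.UN`, theorem `hCODE : StCODE` (or with the hypotheses listed after USES).
Everything elementary needed about `lf`, `dt`, `el`, `hh`, `ofr` is PROVED in `Defs.lean` (`dt_eq`, `lf_eq`, `lf_comb`, `lf_start`,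
`lf_end`, `el_comb`, `continuous_lf`, `continuous_el`, `hh_pos_iff`, ..., `ofr_neg`, `ofr_pos`, `ofr_ne`, `plu`, `plu3`, `om_re`, `om_im`,
`s3`, `s3_gt`, `s3_lt`).  PICTURE: regular hexagon with the vertices `1, 1 + om, om, -1, ..` (`om = exp (2 pi i / 3)`), but the vertex
`1 + om` is replaced by `a` (inner hexagon) and by `b` (outer hexagon), `b - a` is short and points outward (direction between
60 and 120 degrees); `τ` is in the thin triangle `om, a, b`; `g` is very near `b`, inside the triangle `τ, a, b`.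
Notation in the docstrings: `f5 = lf 1 a`, `f1 = lf a om`, `f6 = lf om (-1)`, `f7 = lf (-om) 1`, `f4 = lf 1 b`, `f2 = lf b om`,
`gd = lf a b`, `g0 = lf τ a`, `g3 = lf τ b`; `c = sqrt 3 / 2`; note `lf om (-1) (-x) = lf (-om) 1 x` and
`lf (-om) 1 (-x) = lf om (-1) x` (by `lf_eq` and `ring`).
-/

set_option autoImplicit false

open Set Filter Topology
open scoped ComplexConjugate

noncomputable section

namespace Pool.Agent.Helper54.UN

open Pool.Agent.Helper71.UN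

/-! ## The half plane -/

/-- IOH (the two hexagons in the half plane `0 < el x`).  USES: nothing.  Coordinates `x = X + i Y`, `el x = X + sqrt 3 Y > 0`, `c = sqrt 3 / 2`,
`f6 x = c (X + 1) - Y / 2`, `f7 x = c (1 - X) + Y / 2` (`lf_eq`, `om_re`, `om_im`, `s3`).  FIRST: (the six inequalities of `inH`) from left to right trivial
(`f6 (-x) = f7 x`).  From right to left one has to show `0 < f5 (-x)` and `0 < f1 (-x)` from `el x > 0`, `f6 x > 0`, `f7 x > 0`: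
`f5 (-x) = (1 - a.re) Y + a.im (X + 1)`.  If `Y ≥ 0`: `X + 1 > Y / sqrt 3 ≥ 0` (f6), all terms `≥ 0`, and `a.im (X+1) > 0`.  If `Y < 0`: `X > - sqrt 3 Y > 0` and
`f5 (-x) ≥ a.im + (a.im sqrt 3 - (1 - a.re)) (-Y) > 0`.
`f1 (-x) = lf a om (-x) = (a.re + 1/2) (Y + c) - (a.im - c) (X - 1/2)`: the second term is at most `(1/50) |X - 1/2|`.  If `Y ≥ 0`: `-1 < X` and `X < 1 + Y / sqrt 3`
(f7), so `|X - 1/2| ≤ 3/2 + Y`, and the first term is `≥ 0.98 (Y + 0.86)`.  If `Y < 0`: `0 < X < 1` (f7), so `Y > - X / sqrt 3 > -0.578`, first term `≥ 0.98 * 0.28`.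
SECOND (`ouH`): from right to left trivial (`f7 x = f6 (-x)`).  From left to right: assume `f4 x ≥ 0`, `f2 x ≥ 0`, `f6 x ≥ 0`, `f7 x ≥ 0`, and show that
`f4 (-x) ≥ 0`, `f2 (-x) ≥ 0` (`f6 (-x) = f7 x`): the same computation with `b` in place of `a` and weak inequalities. -/
def StIOH : Prop := ∀ (a b τ g : ℂ), Geo a b τ g → ∀ x : ℂ, 0 < el x →
  (inH a x ↔ 0 < lf 1 a x ∧ 0 < lf a om x ∧ 0 < lf om (-1) x ∧ 0 < lf (-om) 1 x) ∧
  (ouH b x ↔ lf 1 b x < 0 ∨ lf b om x < 0 ∨ lf om (-1) x < 0 ∨ lf (-om) 1 x < 0)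

/-- ELZ (the line `el x = 0`).  USES: nothing.  `x = (- sqrt 3 Y, Y)`.  `f6 x = c - 2 Y`, `f7 x = c + 2 Y`.  Not `ouH` gives `f6 x ≥ 0` and
`f6 (-x) = f7 x ≥ 0`, so `|Y| ≤ c / 2 = sqrt 3 / 4`.  If `Y = sqrt 3 / 4` then `x = (-3/4, sqrt 3 / 4)` is the midpoint of `om`, `-1`.  If
`Y = - sqrt 3 / 4` then `-x` is.  If `|Y| < sqrt 3 / 4`: `f6 x > 0`, `f6 (-x) > 0`, and
`f5 x = (a.re - 1) Y - a.im (- sqrt 3 Y - 1) = a.im + Y (sqrt 3 a.im - (1 - a.re)) > 0` (near `c + Y`), `f5 (-x)` the same with `-Y`;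
`f1 x = lf a om x = (-1/2 - a.re)(Y - a.im) - (c - a.im) (X - a.re)`, near `c - Y > 0`; the same for `-x`. -/
def StELZ : Prop := ∀ (a b τ g : ℂ), Geo a b τ g → ∀ x : ℂ, el x = 0 → ¬ ouH b x →
  inH a x ∨ x ∈ segment ℝ om (-1) ∨ -x ∈ segment ℝ om (-1)

/-- The formula for the label function in the half plane (PROVED below from `StIOH`). -/
def StU : Prop := ∀ (k l : ℤ) (a b τ g : ℂ), Geo a b τ g → ∀ x : ℂ, 0 < el x →
  lamN k l a b τ x = lamU k l a b τ x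

theorem hU (h : StIOH) : StU := by
  intro k l a b τ g hG x hx
  obtain ⟨h1, h2⟩ := h a b τ g hG x hx
  have h3 : ¬ isK a b τ (-x) := by
    rintro ⟨h4, -⟩
    simp only [el, Complex.neg_re, Complex.neg_im] at h4 hx
    linarith
  have h5 : isK a b τ x ↔ (lf a b x < 0 ∨ (0 < lf τ a x ∧ lf τ b x < 0)) := by
    unfold isK
    tauto
  unfold lamN lamU
  simp only [h1, h2, h3, h5, or_false]

theorem lam_even (k l : ℤ) (a b τ x : ℂ) : lamN k l a b τ (-x) = lamN k l a b τ x := by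
  classical
  have h1 : inH a (-x) ↔ inH a x := by unfold inH; rw [neg_neg]; tauto
  have h2 : ouH b (-x) ↔ ouH b x := by unfold ouH; rw [neg_neg]; tauto
  have h3 : (isK a b τ (-x) ∨ isK a b τ (- -x)) ↔ (isK a b τ x ∨ isK a b τ (-x)) := by
    rw [neg_neg]; tauto
  unfold lamN
  exact if_congr h1 rfl (if_congr h2 rfl (if_congr h3 rfl rfl))

theorem evp {f : ℂ → ℝ} (hf : Continuous f) {p : ℂ} (h : 0 < f p) : ∀ᶠ x in 𝓝 p, 0 < f x :=
  (hf.tendsto p).eventually (lt_mem_nhds h)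

theorem evn {f : ℂ → ℝ} (hf : Continuous f) {p : ℂ} (h : f p < 0) : ∀ᶠ x in 𝓝 p, f x < 0 :=
  (hf.tendsto p).eventually (gt_mem_nhds h)

/-! ## Walls -/

/-- Start of the upper wall of the ray `i`. -/
def vA (τ : ℂ) (i : Fin 7) : ℂ := (![τ, om, om, τ, 1, 1, om] : Fin 7 → ℂ) i

/-- End of the upper wall of the ray `i`. -/
def vB (a b : ℂ) (i : Fin 7) : ℂ := (![a, a, b, b, b, a, -1] : Fin 7 → ℂ) i

/-- Left and right labels. -/
def vl (k l : ℤ) (i : Fin 7) : ℤ := (![k, l, 1, l, k, 0, 0] : Fin 7 → ℤ) i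

def vr (k l : ℤ) (i : Fin 7) : ℤ := (![l, 0, l, k, 1, k, 1] : Fin 7 → ℤ) i

/-- `L` on the left and `R` on the right of the open segment from `A` to `B`. -/
def WL (lam : ℂ → ℤ) (A B : ℂ) (L R : ℤ) : Prop :=
  ∀ t : ℝ, 0 < t → t < 1 → ∀ᶠ x in 𝓝 (A + t * (B - A)),
    (0 < dt (B - A) (x - A) → lam x = L) ∧ (dt (B - A) (x - A) < 0 → lam x = R)

/-- WLA (walls of the rays `0, 1, 2, 3`).  USES: StU (hypothesis `hU : StU`).  For a point `p = A + t (B - A)`, `0 < t < 1`, the values of `lf P Q p` are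
`(1 - t) lf P Q A + t lf P Q B` (`lf_comb`), the values at the end points are in `Geo` (or `0`: `lf_start`, `lf_end`); `el p > 0` (`el_comb`).  All the
functionals are continuous, so strict signs persist near `p` (`evp`, `evn`, `continuous_lf`, `continuous_el`); combine them with `filter_upwards`; then use `hU` at
`x` and `unfold lamU` and simplify the conditions.
`i = 0`, `[τ, a]`: at `p`: `f1 < 0`, `f4, f2, f6, f7 > 0`, `gd > 0`, `g3 < 0`; so near `p` the label is `k` if `g0 x > 0`, `l` if `g0 x < 0`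
(`g0 x = lf τ a x = dt (a - τ) (x - τ)` by definition).
`i = 3`, `[τ, b]`: `f1 < 0`, `f4, f2, f6, f7 > 0`, `gd > 0`, `g0 > 0`; so `k` iff `g3 x < 0`: left `l`, right `k`.
`i = 1`, `[om, a]`: `f5, f6, f7 > 0`, `f4, f2 > 0`, `gd > 0`, `g0 < 0`; `lf a om x = - dt (a - om) (x - om)`: right (`dt < 0`): `f1 x > 0`, label `0`; left: `f1 x < 0`, label `l`.
`i = 2`, `[om, b]`: `f1 < 0`, `f4, f6, f7 > 0`, `gd > 0`, `g3 > 0`; `lf b om x = - dt (b - om) (x - om)`: left: `f2 x < 0`, label `1`; right: `f2 x > 0`, label `l`. -/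
def StWLA : Prop := ∀ (k l : ℤ) (a b τ g : ℂ), Geo a b τ g →
  WL (lamN k l a b τ) τ a k l ∧ WL (lamN k l a b τ) om a l 0 ∧
  WL (lamN k l a b τ) om b 1 l ∧ WL (lamN k l a b τ) τ b l k

/-- WLB (walls of the rays `4, 5, 6`).  USES: StU (hypothesis `hU : StU`) for the first two.  See WLA for the method.
`i = 4`, `[1, b]`: at `p`: `f5 < 0`, `f2, f6, f7 > 0`, `gd < 0`: left (`f4 x > 0`): `k`, right (`f4 x < 0`): `1`.
`i = 5`, `[1, a]`: `f1, f6, f7 > 0`, `f4, f2 > 0`, `gd < 0`: left (`f5 x > 0`): `0`; right (`f5 x < 0`): `k`.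
`i = 6`, `[om, -1]` (crosses the line `el = 0`, so use the definition of `lamN` directly): at `p` the functionals `f5, f1` and
`x ↦ f5 (-x)`, `x ↦ f1 (-x)`, `x ↦ f6 (-x) = f7 x` are positive (the last three: affine, values at the end points `om`, `-1` of the segment are `f5 (-om)`,
`f5 1 = 0`, `f1 (-om)`, `f1 1`, `f7 om`, `f7 (-1)`, see `Geo`).  If `f6 x > 0` then `inH a x`: label `0`.  If `f6 x < 0` then not `inH` and `ouH`: label `1`.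
`f6 x = lf om (-1) x = dt (-1 - om) (x - om)` by definition. -/
def StWLB : Prop := ∀ (k l : ℤ) (a b τ g : ℂ), Geo a b τ g →
  WL (lamN k l a b τ) 1 b k 1 ∧ WL (lamN k l a b τ) 1 a 0 k ∧ WL (lamN k l a b τ) om (-1) 0 1

/-- DSJ (the open upper walls are disjoint and above the real axis).  USES: nothing.  FIRST part: `im` is `≥ 0` at both ends and `> 0` at one of them.  SECOND part: for each pair
`i ≠ i'` there is an affine functional which is `> 0` (or `= 0`) on one open wall and has the other sign on the other one (the values at the end points decide, `lf_comb`):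
`6` against all: `x ↦ dt om x` is `> 0` on the open wall `6` (`0` at `om`, `dt om (-1) = c > 0`) and `< 0` on the others (`dt om 1 = -c < 0`, `oa, ob, ot`, `dt om om = 0`).
`{4, 5}` against `{0, 1, 2, 3}`: `gd = lf a b` is `< 0` on the open walls `4, 5` and `> 0` on `0, 1, 2, 3` (`gdv, gdo, gdt`, `0` at `a`, `b`).
`4` against `5`: `lf 1 a` is `< 0` on `4`, `0` on `5`.  `0` against `1`: `lf a om`: `< 0` on `0` (`f1t`), `0` on `1`.  `1` against `2`: `lf a om`: `0` on `1`, `< 0` on `2` (`f1b`).  `1` against `3`: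
`lf a om`: `0`, `< 0`.  `2` against `0`: `lf b om`: `0` on `2`, `> 0` on `0` (`f2t, f2a`).  `2` against `3`: `lf b om`: `0`, `> 0` (`f2t`).  `0` against `3`: `lf τ a`: `0` on `0`, `> 0` on `3`
(`g0b`).  (`fin_cases i <;> fin_cases i'`, 49 cases; or a function `Fin 7 → Fin 7 → functional`; it is enough to treat `i < i'`.) -/
def StDSJ : Prop := ∀ (a b τ g : ℂ), Geo a b τ g →
  (∀ (i : Fin 7) (t : ℝ), 0 < t → t < 1 → 0 < (vA τ i + t * (vB a b i - vA τ i)).im) ∧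
  ∀ (i i' : Fin 7) (t t' : ℝ), 0 < t → t < 1 → 0 < t' → t' < 1 →
    vA τ i + t * (vB a b i - vA τ i) = vA τ i' + t' * (vB a b i' - vA τ i') → i = i'

/-- AVD (no vertex in an open upper wall, the upper vertices are different).  USES: nothing.  The vertices `V = 1, om, a, b, τ, g`.  FIRST: for each wall and each vertex a functional
which is `0` (or of one sign) on the open wall and not `0` (or of the weakly other sign) at the vertex.  The walls are above the real axis, so `V = 1` is no problem.  Let `W6` be the wall `6`: `dt om > 0` on it,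
`≤ 0` at `om, a, b, τ, g` (`oa, ob, ot, og`).  Walls `4, 5`: `gd < 0` on them, `≥ 0` at `om, a, b, τ, g`.  Walls `0, 1, 2, 3`: `gd > 0` on them, `0` at `a`, `b`; `dt om < 0` on them,
`0` at `om`; remaining `V = τ, g`: wall `1`: `lf a om` is `0` on it, `< 0` at `τ`; at `g`: use `lf τ a`: it is `< 0` on the open wall `1` (`g0o`, `0` at `a`) and `> 0` at `g` (`g0g`).
Wall `2`: `lf b om`: `0`, `> 0` at `τ` and `g` (`f2t, f2g`).  Wall `0`: `V = τ`: if `τ + t (a - τ) = τ` then `t (a - τ) = 0`, but `0 < (a - τ).re`; `V = g`: `lf τ a` is `0` on it, `> 0` at `g`.  Wall `3`: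
`V = τ` as before (`d3`); `V = g`: `lf τ b`: `0`, `< 0` at `g` (`g3g`).  SECOND: the six points are different: `1` has imaginary part `0`, the others positive; `om`: `dt om` is `0`, `< 0` at `a, b, τ, g`;
`a ≠ b` (`g0b`, `lf τ a a = 0`), `a ≠ τ` (`d0`), `b ≠ τ` (`d3`), `g` different from `a, b, τ` (`gdg`, `gd = 0` at `a`, `b`; `g0g`, `lf τ a τ = 0`). -/
def StAVD : Prop := ∀ (a b τ g : ℂ), Geo a b τ g →
  (∀ (i : Fin 7) (t : ℝ), 0 < t → t < 1 → ∀ v ∈ ({1, om, a, b, τ, g} : Set ℂ),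
    vA τ i + t * (vB a b i - vA τ i) ≠ v) ∧
  ∀ i j : Fin 6, (![1, om, a, b, τ, g] : Fin 6 → ℂ) i = (![1, om, a, b, τ, g] : Fin 6 → ℂ) j → i = j

/-- FAR (a point outside of the outer hexagon is not inside of the inner one).  USES: nothing.  FIRST: with `z = x - 1`: `f5 x = dt (a - 1) z`, `f7 x = - dt (-(1 + om)) z`, `f4 x = dt (b - 1) z`; `plu3` with
`p = a - 1`, `q = -(1 + om)`, `r = b - 1` gives `t56 * f4 x = f7 x * t45 + f5 x * t46`, all three constants are `> 0`.  SECOND: with `z = x - om`: `f1 x = - dt (a - om) z`, `f6 x = dt (-(1+om)) z`,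
`f2 x = - dt (b - om) z`; `plu3` with `p = -(1+om)`, `q = a - om`, `r = b - om` gives `t61 * f2 x = f1 x * t62 + f6 x * t12`.  THIRD: `ouH b` is open (`evn`, `continuous_lf`, also composed with `x ↦ -x`; it is a
finite union), and `inH a y` contradicts `ouH b y`: `inH a y` gives `f5, f1, f6 > 0` at `y` and at `-y`, and `f7 y = f6 (-y)`, `f7 (-y) = f6 y`, so by the first two parts `f4, f2 ≥ 0` at `y` and at `-y`. -/
def StFAR : Prop := ∀ (a b τ g : ℂ), Geo a b τ g → ∀ x : ℂ,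
  (0 ≤ lf 1 a x → 0 ≤ lf (-om) 1 x → 0 ≤ lf 1 b x) ∧
  (0 ≤ lf a om x → 0 ≤ lf om (-1) x → 0 ≤ lf b om x) ∧
  (ouH b x → ∀ᶠ y in 𝓝 x, ¬ inH a y ∧ ouH b y)

/-- OFU (the label is locally constant off the walls, in the half plane).  USES: StU, StIOH, StFAR, StSEGM (hypotheses).  If `inH a x`: `inH a` is open (`evp`), label `0` near `x`.  If `ouH b x`: by FAR (third part) label `1` near `x`.
OTHERWISE (not `inH a x`, not `ouH b x`), by `StIOH`: `f4, f2, f6, f7 ≥ 0` at `x` and not (`f5, f1, f6, f7 > 0`).  (i) All four are `> 0`, because `x` is not in a closed wall: use SEGM.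
`f6 x = 0`: `x = om + u (-1 - om)`, `f2 x = u f2(-1) ≥ 0` gives `u ≥ 0`; not `ouH` gives `lf 1 b (-x) ≥ 0`, and `lf 1 b (-x) = (1 - u) lf 1 b (-om)` (`lf_eq`, `ring`), so `u ≤ 1`: `x` in the wall `6`, excluded.
`f7 x = 0`: `f6 (-x) = 0`, so `-x = om + u (-1 - om)`, `lf b om (-x) = u f2(-1) ≥ 0` (not `ouH`), `lf 1 b x = (1 - u) lf 1 b (-om) ≥ 0`: `-x` in the wall `6`, excluded.  `f4 x = 0`: `x = 1 + u (b - 1)`, `f7 x = u f7 b ≥ 0`,
`f2 x = (1 - u) f2 1 ≥ 0`: wall `4`.  `f2 x = 0` (line `b, om`; use SEGM with `P = om`, `Q = b`, `lf om b x = - lf b om x`): `x = om + u (b - om)`, `f6 x = u f6 b`, `f4 x = (1 - u) f4 om`: wall `2`.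
(ii) CASE `gd x < 0`.  Then `f5 x < 0`: if `f5 x = 0`: `x = 1 + u (a - 1)`, `f7 x = u f7 a ≥ 0`, `gd x = (1 - u) gd 1 < 0` give `0 ≤ u < 1`: wall `5`, excluded.  If `f5 x > 0`, then `f1 x ≤ 0` (not all of
`f5, f1, f6, f7` are `> 0`); with `z = x - a`: `f5 x = dt (a - 1) z`, `f1 x = - dt (a - om) z`, `gd x = dt (b - a) z` (`lf_eq`, `ring`), `plu3` with `p = a - om`, `q = a - 1`, `r = b - a`:
`t15 * gd x = - f5 x * e1 - f1 x * e5 > 0` (`e1 < 0`, `e5 > 0`): contradiction.  So `f5 < 0`, `gd < 0`, `f4, f2, f6, f7 > 0`, `el > 0` near `x`: label `k` near `x` (`StU`, `unfold lamU`).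
(iii) CASE `gd x ≥ 0`.  Then `f1 x < 0`: if `f1 x > 0` then `f5 x ≤ 0` and `t15 * gd x = - f5 x * e1 - f1 x * e5 < 0`, contradiction; if `f1 x = 0`: SEGM with `P = om`, `Q = a`: `x = om + u (a - om)`, `f6 x = u f6 a ≥ 0`,
`gd x = (1 - u) gd om ≥ 0`: wall `1`, excluded.  If `g0 x > 0` and `g3 x < 0`: these, `f1 < 0`, `f4, f2, f6, f7 > 0` persist: label `k`.  Otherwise `gd x > 0`: if `gd x = 0` then (SEGM `P = a`, `Q = b`) `x = a + u (b - a)`; `f1 x = u f1 b < 0`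
gives `u > 0`, `f2 x = (1 - u) f2 a > 0` gives `u < 1`, so `g0 x = u g0 b > 0`, `g3 x = (1 - u) g3 a < 0`: contradiction.  If `g0 x < 0` or `g3 x > 0`: persists together with `gd > 0`, `f1 < 0`, ..: label `l`.
Remaining: `g0 x = 0` (and `g3 x ≤ 0`): `x = τ + u (a - τ)`, `g3 x = u g3 a ≤ 0` gives `u ≥ 0`, `gd x = (1 - u) gd τ > 0` gives `u < 1`: wall `0`, excluded; or `g3 x = 0` (and `g0 x ≥ 0`): `x = τ + u (b - τ)`, `g0 x = u g0 b ≥ 0`,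
`gd x = (1 - u) gd τ > 0`: wall `3`, excluded. -/
def StOFU : Prop := ∀ (k l : ℤ) (a b τ g : ℂ), Geo a b τ g → ∀ x : ℂ, 0 < el x →
  (∀ i : Fin 7, x ∉ segment ℝ (vA τ i) (vB a b i) ∧ -x ∉ segment ℝ (vA τ i) (vB a b i)) →
  ∀ᶠ y in 𝓝 x, lamN k l a b τ y = lamN k l a b τ x

/-- The same in the whole plane. -/
def StOFF : Prop := ∀ (k l : ℤ) (a b τ g : ℂ), Geo a b τ g → ∀ x : ℂ,
  (∀ i : Fin 7, x ∉ segment ℝ (vA τ i) (vB a b i) ∧ -x ∉ segment ℝ (vA τ i) (vB a b i)) →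
  ∀ᶠ y in 𝓝 x, lamN k l a b τ y = lamN k l a b τ x

/-- SEGM.  USES: nothing.  If `P ≠ Q` and `lf P Q x = 0` then `x = P + u (Q - P)` for a real `u` (put `w = x - P`, `d = Q - P ≠ 0`, `dt d w = 0`, `u = (w * conj d).re / ‖d‖^2`).  For the
second part `lf R S x = (1 - u) lf R S P + u lf R S Q` by `lf_comb`. -/
def StSEGM : Prop := ∀ (P Q x : ℂ), P ≠ Q → lf P Q x = 0 →
  ∃ u : ℝ, x = P + u * (Q - P) ∧ (0 ≤ u → u ≤ 1 → x ∈ segment ℝ P Q) ∧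
    ∀ R S : ℂ, lf R S x = (1 - u) * lf R S P + u * lf R S Q

/-! ## Vertices

At a vertex `p` (`el p > 0`) write `x = p + z`; the functionals which vanish at `p` are `dt` of `z` with the rays, the others keep their sign near `p` (`evp`, `evn`: for `f` continuous
`fun z => f (p + z)` is continuous at `0`).  With `hU` (`StU`) the label is a function of the signs.  `stN` is the index of the state at `z`.  Write `D0 = dt (a - τ) z`, `D1 = dt (a - om) z`, `D2 = dt (b - om) z`,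
`D3 = dt (b - τ) z`, `D4 = dt (b - 1) z`, `D5 = dt (a - 1) z`, `D6 = dt (-(1 + om)) z`, `e = dt (b - a) z`.  Basic tool `plu` (`dt p q * z.re = - dt q z * p.re + dt p z * q.re`), e.g.
MONOTONICITY: if `z.re > 0` and `D0 ≤ 0` then `D1 < 0` (`plu` with `p = a - τ`, `q = a - om`, `t01 > 0`, `d0, d1 > 0`), and in the same way `D1 ≤ 0 → D2 < 0`, `D2 ≤ 0 → D3 < 0`.
`ofr_neg`: if `0 < d.re`, `ofr d z`, `dt d z = 0` then `z.re < 0`; `ofr_pos`: if `d.re < 0` then `0 < z.re`. -/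

open Classical in
/-- Index of the state at `z`. -/
def stN (a b τ z : ℂ) : Fin 7 :=
  if 0 < z.re then
    (if dt (a - τ) z ≤ 0 then 0 else if dt (a - om) z ≤ 0 then 1 else if dt (b - om) z ≤ 0 then 2
      else if dt (b - τ) z ≤ 0 then 3 else 4)
  else
    (if 0 ≤ dt (-(1 + om)) z then 0 else if 0 ≤ dt (a - 1) z then 6
      else if 0 ≤ dt (b - 1) z then 5 else 4)

/-- VEL (vertex `1`, copy `0`).  USES: StU.  `x = 1 + z`: `f5 x = D5`, `f4 x = D4`, `f7 x = - D6` (`lf_eq`, `ring`); near: `f1, f6, f2 > 0` (`f1v, f6v, f2v`), `gd < 0` (`gdv`), `el > 0`.  So (`lamU`) label `0` if `D5 > 0` and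
`D6 < 0`; otherwise `1` if `D4 < 0` or `D6 > 0`; otherwise `k`.  `st6 i 0` is `1, 1, 1, 1, 1, 2, 0` for `i = 0, .., 6` (`2` means `k`).  SIDE `z.re > 0`: the state gives `1`.  `plu` with `p = b - 1`, `q = -(1+om)`:
`t46 * z.re = - D6 * d4 + D4 * d6`, so `D6 ≤ 0` implies `D4 < 0`; `p = a - 1`: `t56 * z.re = - D6 * d5 + D5 * d6`, so not (`D5 > 0` and `D6 < 0`).  SIDE `z.re ≤ 0`: if `D6 ≥ 0`: `D6 ≠ 0` (`ofr_pos` would give `z.re > 0`), label `1`, state `st6 0 0 = 1`.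
If `D6 < 0`, `D5 ≥ 0`: `D5 ≠ 0`, label `0`, state `st6 6 0 = 0`.  If `D6 < 0`, `D5 < 0`, `D4 ≥ 0`: label `k`, state `st6 5 0 = 2`.  If all `< 0`: label `1`, state `st6 4 0 = 1`. -/
def StVEL : Prop := ∀ (k l : ℤ) (a b τ g : ℂ), Geo a b τ g → ∀ᶠ z in 𝓝 (0 : ℂ),
  ofr (b - 1) z → ofr (a - 1) z → ofr (-(1 + om)) z →
  lamN k l a b τ (1 + z) = lb k l (st6 (stN a b τ z) 0)

/-- VEK (vertex `om`, copy `1`).  USES: StU.  `x = om + z`: `f1 x = - D1`, `f2 x = - D2`, `f6 x = D6`; near: `f5, f7, f4 > 0` (`f5o, f7o, f4o`), `gd > 0` (`gdo`), `g0 < 0` (`g0o`), `el > 0`.  So label `0` if `D1 < 0` and `D6 > 0`; otherwise `1` if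
`D2 > 0` or `D6 < 0`; otherwise `l`.  `st6 i 1` is `0, 0, 3, 1, 1, 1, 1` (`3` means `l`).  SIDE `z.re > 0`: `plu` with `p = -(1+om)`, `q = b - om`: `t62 * z.re = - D2 * d6 + D6 * d2`, so `D2 ≤ 0` implies `D6 > 0`.  If `D0 ≤ 0`: `D1 < 0`, `D2 < 0` (monotonicity), `D6 > 0`: label `0`,
state `0`.  If `D1 ≤ 0`: `D1 ≠ 0` (`ofr_neg`), `D2 < 0`: label `0`, state `0`.  If `D1 > 0`, `D2 ≤ 0`: `D2 ≠ 0`, `D6 > 0`: label `l`, state `3`.  If `D2 > 0`: `D1 > 0` (otherwise `D2 < 0`), label `1`, states `3` or `4`: `1`.  SIDE `z.re ≤ 0`: if `D6 ≥ 0`: `D6 ≠ 0`, and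
`t61 * z.re = - D1 * d6 + D6 * d1` gives `D1 < 0`: label `0`, state `st6 0 1 = 0`.  If `D6 < 0`: label `1`, states `6, 5, 4`: `1`. -/
def StVEK : Prop := ∀ (k l : ℤ) (a b τ g : ℂ), Geo a b τ g → ∀ᶠ z in 𝓝 (0 : ℂ),
  ofr (a - om) z → ofr (b - om) z → ofr (-(1 + om)) z →
  lamN k l a b τ (om + z) = lb k l (st6 (stN a b τ z) 1)

/-- VEI (vertex `-a`, copy `2`).  USES: StU.  `lamN (-a + z) = lamN (a - z)` (`lam_even`), `x = a - z`: `f5 x = - D5`, `f1 x = D1`, `gd x = - e`, `g0 x = - D0`; near: `f6, f7, f4, f2 > 0` (`f6a, f7a, f4a, f2a`), `g3 < 0` (`g3a`), `el > 0`.  So label `0` if `D5 < 0` and `D1 > 0`; otherwise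
(never `1`) `k` if `e > 0` or `D0 < 0`; otherwise `l`.  `st6 i 2` is `2, 3, 0, 0, 0, 0, 2` (`2`: `k`, `3`: `l`).  SIDE `z.re > 0`: if `D0 ≤ 0`: `D0 ≠ 0` (`ofr_neg`), `D1 < 0` (monotonicity): `k`, state `st6 0 2 = 2`.  If `D0 > 0`, `D1 ≤ 0`: `D1 ≠ 0`, and `plu3` with
`p = a - τ`, `q = a - om`, `r = b - a`: `t01 * e = - D1 * e0 + D0 * e1 < 0`, so `e < 0`: `l`, state `3`.  If `D1 > 0`: `plu` with `p = a - om`, `q = a - 1`: `t15 * z.re = - D5 * d1 + D1 * d5`, so `D5 < 0`: label `0`, states `2, 3, 4`: `0`.  SIDE `z.re ≤ 0` (`z ≠ 0` by `ofr_ne`): if `D6 ≥ 0`: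
`t60 * z.re = - D0 * d6 + D6 * d0` and `t61 * z.re = - D1 * d6 + D6 * d1` give `D0 ≤ 0`, `D1 ≤ 0`, and `D0 < 0` (otherwise `z.re = 0` and `D6 = 0`, so `z = 0`): label `k`, state `st6 0 2 = 2`.  If `D6 < 0`, `D5 ≥ 0`: `D5 ≠ 0` (`ofr_pos`), not label `0`; if `D0 ≥ 0` then `plu3` with
`p = a - τ`, `q = a - 1`, `r = b - a`: `t05 * e = - D5 * e0 + D0 * e5 > 0`; so `e > 0` or `D0 < 0`: label `k`, state `st6 6 2 = 2`.  If `D5 < 0`: `t15 * z.re = - D5 * d1 + D1 * d5` gives `D1 > 0`: label `0`, states `5, 4`: `0`. -/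
def StVEI : Prop := ∀ (k l : ℤ) (a b τ g : ℂ), Geo a b τ g → ∀ᶠ z in 𝓝 (0 : ℂ),
  ofr (a - τ) z → ofr (a - om) z → ofr (a - 1) z →
  lamN k l a b τ (-a + z) = lb k l (st6 (stN a b τ z) 2)

/-- VEO (vertex `-b`, copy `3`).  USES: StU.  `lamN (-b + z) = lamN (b - z)`, `x = b - z`: `f4 x = - D4`, `f2 x = D2`, `gd x = - e`, `g3 x = - D3`; near: `f5 < 0` (`f5b`), `f6, f7 > 0`, `g0 > 0` (`g0b`), `el > 0`.  So label `1` if `D4 > 0` or `D2 < 0`; otherwise `k` if `e > 0` or `D3 > 0`; otherwise `l`.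
`st6 i 3` is `1, 1, 1, 3, 2, 1, 1` (`3`: `l`, `2`: `k`).  SIDE `z.re > 0`: if `D0 ≤ 0` or `D1 ≤ 0`: `D2 < 0` (monotonicity): label `1`.  If `D2 ≤ 0`: `D2 ≠ 0` (`ofr_neg`), label `1`.  If `D2 > 0`: `t24 * z.re = - D4 * d2 + D2 * d4` gives `D4 < 0`.  If moreover `D3 ≤ 0`: `D3 ≠ 0`, and `plu3` with
`p = b - om`, `q = b - τ`, `r = b - a`: `t23 * e = - D3 * e2 + D2 * e3 < 0`: label `l`, state `st6 3 3 = 3`.  If `D3 > 0`: label `k`, state `st6 4 3 = 2`.  SIDE `z.re ≤ 0` (`z ≠ 0`): if `D6 ≥ 0`: `t62 * z.re = - D2 * d6 + D6 * d2` gives `D2 ≤ 0`, `≠ 0` because `z ≠ 0`: label `1`, state `st6 0 3 = 1`.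
If `D6 < 0`, `D5 ≥ 0`: `t45 * z.re = - D5 * d4 + D4 * d5` gives `D4 ≥ 0`, `≠ 0` because `z ≠ 0`: label `1`, state `st6 6 3 = 1`.  If `D5 < 0`, `D4 ≥ 0`: `D4 ≠ 0` (`ofr_pos`), label `1`, state `st6 5 3 = 1`.  If `D4 < 0`: `t24 * z.re = - D4 * d2 + D2 * d4` and
`t34 * z.re = - D4 * d3 + D3 * d4` give `D2 > 0`, `D3 > 0`: label `k`, state `st6 4 3 = 2`. -/
def StVEO : Prop := ∀ (k l : ℤ) (a b τ g : ℂ), Geo a b τ g → ∀ᶠ z in 𝓝 (0 : ℂ),
  ofr (b - om) z → ofr (b - τ) z → ofr (b - 1) z →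
  lamN k l a b τ (-b + z) = lb k l (st6 (stN a b τ z) 3)

/-- VET (vertex `τ`, copy `4`, and the far point `-g`, copy `5`).  USES: StU.  FIRST: `x = τ + z`: `g0 x = D0`, `g3 x = D3`; near: `f1 < 0` (`f1t`), `f4, f2, f6, f7 > 0`, `gd > 0`, `el > 0`.  So label `k` if `D0 > 0` and `D3 < 0`, otherwise `l`.  `st6 i 4` is `3, 2, 2, 2, 3, 3, 3`.
SIDE `z.re > 0`: `D0 ≤ 0`: `l`.  `D0 > 0` and `D1 ≤ 0` or `D2 ≤ 0`: `D3 < 0` (monotonicity): `k`.  `D2 > 0`, `D3 ≤ 0`: `D3 ≠ 0` (`ofr_neg`): `k` (`D0 > 0`).  `D3 > 0`: `l`.  SIDE `z.re ≤ 0`: `plu` with `p = a - τ`, `q = b - τ`: `t03 * z.re = - D3 * d0 + D0 * d3`, so not (`D0 > 0` and `D3 < 0`): `l`, states `0, 6, 5, 4`: `3`.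
SECOND: `lamN (-g + z) = lamN (g - z)`, near `g`: `f5 < 0` (`f5g`), `f4, f2, f6, f7 > 0`, `g0 > 0`, `g3 < 0`, `el > 0`: label `k`; `st6 i 5 = 2` for all `i`. -/
def StVET : Prop := ∀ (k l : ℤ) (a b τ g : ℂ), Geo a b τ g →
  (∀ᶠ z in 𝓝 (0 : ℂ), ofr (a - τ) z → ofr (b - τ) z →
    lamN k l a b τ (τ + z) = lb k l (st6 (stN a b τ z) 4)) ∧
  ∀ᶠ z in 𝓝 (0 : ℂ), lamN k l a b τ (-g + z) = lb k l (st6 (stN a b τ z) 5)

/-! ## Existence of the sign table -/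

/-- The normalised data. -/
structure Cf1 (η : ℝ) (a b τ : ℂ) (s θ : ℝ) : Prop where
  ha : ‖a - (1 + om)‖ ≤ η
  hb : ‖b - (1 + om)‖ ≤ η
  h1 : 0 < dt (a - om) (b - a)
  h2 : 0 < dt (b - a) (a - 1)
  h3 : 0 < dt (1 + om) (b - a)
  s0 : 0 < s
  s1 : s < 1 / 2
  θ0 : 0 < θ
  θ1 : θ < 1
  hτ : τ = om + s * ((a - om) + θ * (b - a))

/-- SG1.  USES: nothing.  `a = (a1, a2)`, `b - a = (p, q)`, `c = sqrt 3 / 2`, `|a1 - 1/2|, |a2 - c| ≤ η ≤ 1/100` (`Complex.abs_re_le_norm`, `abs_im_le_norm`), `|p|, |q| ≤ 2 η`.  `h3`: `q / 2 - c p > 0`.  `h2`: `p a2 - q (a1 - 1) > 0`.  If `q ≤ 0`: `p < q / (2c) ≤ 0` and then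
`p a2 + q (1 - a1) ≤ 0`: contradiction.  So `q > 0`, `p < q / sqrt 3 < 0.58 q`, `p > - q (1 - a1) / a2 > - 0.6 q`. -/
def StSG1 : Prop := ∀ (η : ℝ) (a b τ : ℂ) (s θ : ℝ), η ≤ 1 / 100 → Cf1 η a b τ s θ →
  0 < (b - a).im ∧ |(b - a).re| ≤ 3 / 5 * (b - a).im ∧ (b - a).im ≤ 1 / 50

/-- All fields of `Geo` without `g`. -/
structure Geo1 (a b τ : ℂ) : Prop where
  na1 : |a.re - 1 / 2| ≤ 1 / 50
  na2 : |a.im - Real.sqrt 3 / 2| ≤ 1 / 50
  nb1 : |b.re - 1 / 2| ≤ 1 / 50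
  nb2 : |b.im - Real.sqrt 3 / 2| ≤ 1 / 50
  d0 : 0 < (a - τ).re
  d1 : 0 < (a - om).re
  d2 : 0 < (b - om).re
  d3 : 0 < (b - τ).re
  d4 : (b - 1).re < 0
  d5 : (a - 1).re < 0
  d6 : (-(1 + om)).re < 0
  t01 : 0 < dt (a - τ) (a - om)
  t12 : 0 < dt (a - om) (b - om)
  t23 : 0 < dt (b - om) (b - τ)
  t02 : 0 < dt (a - τ) (b - om)
  t03 : 0 < dt (a - τ) (b - τ)
  t13 : 0 < dt (a - om) (b - τ)
  t45 : 0 < dt (b - 1) (a - 1)
  t04 : 0 < dt (a - τ) (b - 1)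
  t05 : 0 < dt (a - τ) (a - 1)
  t14 : 0 < dt (a - om) (b - 1)
  t15 : 0 < dt (a - om) (a - 1)
  t24 : 0 < dt (b - om) (b - 1)
  t25 : 0 < dt (b - om) (a - 1)
  t34 : 0 < dt (b - τ) (b - 1)
  t35 : 0 < dt (b - τ) (a - 1)
  t46 : 0 < dt (b - 1) (-(1 + om))
  t56 : 0 < dt (a - 1) (-(1 + om))
  t60 : 0 < dt (-(1 + om)) (a - τ)
  t61 : 0 < dt (-(1 + om)) (a - om)
  t62 : 0 < dt (-(1 + om)) (b - om)
  t63 : 0 < dt (-(1 + om)) (b - τ)
  e0 : dt (b - a) (a - τ) < 0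
  e1 : dt (b - a) (a - om) < 0
  e2 : dt (b - a) (b - om) < 0
  e3 : dt (b - a) (b - τ) < 0
  e4 : 0 < dt (b - a) (b - 1)
  e5 : 0 < dt (b - a) (a - 1)

/-- The values of the functionals, without `g`. -/
structure Geo2 (a b τ : ℂ) : Prop where
  f5o : 0 < lf 1 a om
  f5t : 0 < lf 1 a τ
  f5b : lf 1 a b < 0
  f5n : 0 < lf 1 a (-1)
  f5m : 0 < lf 1 a (-om)
  f1v : 0 < lf a om 1
  f1b : lf a om b < 0
  f1t : lf a om τ < 0
  f1n : 0 < lf a om (-1)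
  f1m : 0 < lf a om (-om)
  f6v : 0 < lf om (-1) 1
  f6a : 0 < lf om (-1) a
  f6b : 0 < lf om (-1) b
  f6t : 0 < lf om (-1) τ
  f6m : 0 < lf om (-1) (-om)
  f7o : 0 < lf (-om) 1 om
  f7a : 0 < lf (-om) 1 a
  f7b : 0 < lf (-om) 1 b
  f7t : 0 < lf (-om) 1 τ
  f7n : 0 < lf (-om) 1 (-1)
  f4a : 0 < lf 1 b a
  f4o : 0 < lf 1 b om
  f4t : 0 < lf 1 b τ
  f4n : 0 < lf 1 b (-1)
  f4m : 0 < lf 1 b (-om)
  f2a : 0 < lf b om a
  f2v : 0 < lf b om 1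
  f2t : 0 < lf b om τ
  f2n : 0 < lf b om (-1)
  f2m : 0 < lf b om (-om)
  gdv : lf a b 1 < 0
  gdo : 0 < lf a b om
  gdt : 0 < lf a b τ
  g0b : 0 < lf τ a b
  g0o : lf τ a om < 0
  g0v : lf τ a 1 < 0
  g3a : lf τ b a < 0
  g3o : 0 < lf τ b om
  g3v : lf τ b 1 < 0
  ev : 0 < el 1
  eo : 0 < el om
  ea : 0 < el a
  eb : 0 < el b
  et : 0 < el τ
  ia : 0 < a.im
  ib : 0 < b.im
  it : 0 < τ.im
  oa : dt om a < 0
  ob : dt om b < 0
  ot : dt om τ < 0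

/-- SG2.  USES: StSG1.  Put `E = a - om`, `δ = b - a`, `G = a - 1`, `X1 = dt E δ > 0`, `X2 = dt δ G > 0`.  `a - τ = (1 - s) E - s θ δ`, `b - τ = (1 - s) E + (1 - s θ) δ`, `b - om = E + δ`, `b - 1 = G + δ`.  EXACT (by `dt_eq`, substitution of `τ` and `ring`): `t01 = s θ X1`, `t12 = X1`,
`t23 = s (1 - θ) X1`, `t02 = (1 - s + s θ) X1`, `t03 = (1 - s) X1`, `t13 = (1 - s θ) X1`, `t45 = X2`, `e0 = e3 = -(1 - s) X1`, `e1 = e2 = - X1`, `e4 = e5 = X2`.  All the other fields compare with the regular hexagon: with `a1, a2` within `1/100` of `1/2`, `c`; `0 < q ≤ 1/50`, `|p| ≤ 3/5 q`;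
`E.re ≥ 0.99`, `|E.im| ≤ 0.01`, `G.re` near `-1/2`, `G.im` near `c`, `(a - τ).re ≥ 0.48`, `|(a - τ).im| ≤ 0.03`, `(b - τ).re ≥ 0.48`, `|(b - τ).im| ≤ 0.04`; e.g. `t05 = (a - τ).re * G.im - (a - τ).im * G.re ≥ 0.48 * 0.85 - 0.03 * 0.52`.  Numerical minima over all configurations: `t04, t05 ≥ 0.41`,
`t14, t15, t24, t25 ≥ 0.84`, `t34, t35 ≥ 0.42`, `t46, t56, t61, t62 ≥ 0.85`, `t60, t63 ≥ 0.42`. -/
def StSG2 : Prop := ∀ (η : ℝ) (a b τ : ℂ) (s θ : ℝ), η ≤ 1 / 100 → Cf1 η a b τ s θ →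
  Geo1 a b τ

/-- SG3.  USES: StSG1.  Notation of SG2.  EXACT: `f5b = -X2`, `f1b = -X1`, `f1t = - s θ X1`, `f4a = X2`, `f2a = X1`, `f2t = s (1 - θ) X1`, `gdv = - X2`, `gdo = X1`, `gdt = (1 - s) X1`, `g0b = (1 - s) X1`, `g0o = - s θ X1`, `g3a = -(1 - s) X1`, `g3o = s (1 - θ) X1`.
The vanishing of `f6t` for small `s`: `lf om (-1) τ = dt (-1 - om) (τ - om) = s dt (-(1+om)) (E + θ δ) > 0` (near `s c`); `ot`: `dt om τ = s dt om (E + θ δ) < 0` (near `- s c`); `et`: `el τ = 1 + s el (E + θ δ)` with `el (E + θ δ)` near `1`; `it`: `τ.im = c + s (E + θ δ).im`.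
All the other fields are bounded away from `0`: numerical minima of the absolute values: `f5o ≥ 0.84, f5t ≥ 0.41, f5n ≥ 1.7, f5m ≥ 0.85, f1v ≥ 0.84, f1n ≥ 0.85, f1m ≥ 1.7, f6v, f6m, f7o, f7n = sqrt 3, f6a, f6b ≥ 0.85, f7a, f7b ≥ 0.85, f7t ≥ 1.29, f4o ≥ 0.84, f4t ≥ 0.42, f4n ≥ 1.7, f4m ≥ 0.85,
f2v ≥ 0.84, f2n ≥ 0.85, f2m ≥ 1.7, g0v ≤ -0.41, g3v ≤ -0.42, ev, eo = 1, ea, eb ≥ 1.9, oa, ob ≤ -0.85`. -/
def StSG3 : Prop := ∀ (η : ℝ) (a b τ : ℂ) (s θ : ℝ), η ≤ 1 / 100 → Cf1 η a b τ s θ →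
  Geo2 a b τ

/-- SG4.  USES: StSG1, StSG2, StSG3.  `g = b - σ (1 + b)`.  EXACT: `f4g = 2 σ b.im`, `f2g = σ dt (b - om) (1 + b)` (near `σ c`), `gdg = σ dt (1 + b) (b - a)`, where `dt (1 + b) (b - a) = (1 + b.re) q - b.im p ≥ 1.48 q - 0.9 * 0.6 q > 0` (SG1), `g3g = - σ dt (b - τ) (1 + b)`
(`dt (b - τ) (1 + b) ≥ 0.48 * 0.85 - 0.04 * 1.52 > 0`), `f5g = f5b - σ (..)`, `g0g = g0b - σ (..)` with bounded brackets `dt (a - 1) (1 + b)`, `dt (a - τ) (1 + b)` of absolute value `≤ 3`; `f6g, f7g, eg, ig, og` are within `4 σ` of the values `≥ 0.85` at `b` (`|og|`).  So every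
`σ` with `0 < σ ≤ 1/10`, `3 σ < - f5b`, `3 σ < g0b` works; there is a rational one (`exists_rat_btwn`). -/
def StSG4 : Prop := ∀ (η : ℝ) (a b τ : ℂ) (s θ : ℝ), η ≤ 1 / 100 → Cf1 η a b τ s θ →
  ∃ σ : ℚ, 0 < σ ∧ σ < 1 ∧ Geo a b τ (b - (σ : ℂ) * (1 + b))

/-! ## Radii -/

/-- RAD.  USES: nothing.  Choose `ε > 0` with `ε ≤ 1/10`, `(1 + ε) < κ (c - ε)`, `c = sqrt 3 / 2` (possible since `κ c > 1`; e.g. by continuity, or `ε = min (1/10) ((κ c - 1) / (2 (κ + 1)))`), `r₁ = c - ε`, `r₂ = 1 + ε`, `η = ε / 100`.  FIRST (inner): `‖x‖ ≤ r₁`.  `lf 1 a x = a.im + dt (a - 1) x`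
with `|dt (a - 1) x| ≤ ‖a - 1‖ ‖x‖ ≤ (1 + η) r₁` (`|dt p q| ≤ ‖p‖ ‖q‖`, since `dt p q = (q * conj p).im`; `‖om‖ = 1`), and `a.im ≥ c - η > (1 + η)(c - ε)`.  `lf a om x = dt a om + dt (om - a) x`, `dt a om = a.re c + a.im / 2 ≥ c - 2 η`, `‖om - a‖ ≤ 1 + η`.  `lf om (-1) x = c + dt (-(1 + om)) x`, `‖1 + om‖ = 1`.
The same for `-x`.  SECOND (outer), by contradiction: not `ouH b x`, `M = ‖x‖ ≥ 1 + ε`.  `A = x.im = dt 1 x`, `B = dt om x`, `A + B = dt (1 + om) x`.  From `lf 1 b (±x) ≥ 0`: `|dt (b - 1) x| ≤ b.im ≤ c + η`, so `|B| ≤ c + η + η M` (`b - 1 - om` has norm `≤ η`); from `lf b om (± x) ≥ 0`: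
`|dt (om - b) x| ≤ dt b om ≤ c + 2 η`, so `|A| ≤ c + 2 η + η M`; from `lf om (-1) (± x) ≥ 0`: `|A + B| ≤ c`.  So `|A|, |B|, |A + B| ≤ m := c + 2 η + η M` and `M^2 = (4/3) (A^2 + A B + B^2) ≤ (4/3) m^2` (`A^2 + A B + B^2 ≤ m^2`: if `A B ≤ 0` it is `≤ max (A^2, B^2)`, otherwise `(A + B)^2 - A B`),
`M ≤ 1 + (2/sqrt 3) (2 η + η M)`, so `M (1 - 2 η) ≤ 1 + 3 η`, `M < 1 + ε`: contradiction. -/
def StRAD : Prop := ∀ κ : ℝ, 1 < κ → 4 / 3 < κ ^ 2 → ∃ η r₁ r₂ : ℝ, 0 < η ∧ η ≤ 1 / 100 ∧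
  0 < r₁ ∧ r₂ < κ * r₁ ∧ 1 + η < r₂ ∧ ∀ a b : ℂ, ‖a - (1 + om)‖ ≤ η → ‖b - (1 + om)‖ ≤ η →
    (∀ x, ‖x‖ ≤ r₁ → inH a x) ∧ ∀ x, r₂ ≤ ‖x‖ → ouH b x

/-- NIN (the walls and vertices are not inside of the inner hexagon and in the disc of radius `1 + η`).  USES: nothing.  FIRST: on the closed wall `i` one of the functionals `f5` (`i = 4, 5`), `f1` (`i = 0, 1, 2, 3`), `f6` (`i = 6`) is `≤ 0`
(`lf_comb`, values at the end points in `Geo2`), so not `inH`; the norm is convex, the end points have norm `≤ 1 + η` (`‖om‖ = 1`, `‖1 + om‖ = 1`; `τ = (1 - s) om + s ((1 - θ) a + θ b)`).  SECOND: `g = (1 - σ) b - σ`. -/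
def StNIN : Prop := ∀ (η : ℝ) (a b τ : ℂ) (s θ : ℝ), 0 < η → η ≤ 1 / 100 → Cf1 η a b τ s θ →
  ∀ σ : ℚ, 0 < σ → σ < 1 → Geo a b τ (b - (σ : ℂ) * (1 + b)) →
  (∀ i, ∀ x ∈ segment ℝ (vA τ i) (vB a b i), ¬ inH a x ∧ ‖x‖ ≤ 1 + η) ∧
  ¬ inH a (b - (σ : ℂ) * (1 + b)) ∧ ‖b - (σ : ℂ) * (1 + b)‖ ≤ 1 + η

/-! ## Scaling -/

/-- SCL (a network multiplied by `v`).  USES: nothing.  `hh (v * d) (v * z) = ‖v‖ * hh d z`, `tt (v * d) (v * z) = ‖v‖ * tt d z` (`conj (v * d) = conj v * conj d`, `v * conj v = ‖v‖^2`).  Each field: put `x = v * y`; `𝓝 (v * y)` is the image of `𝓝 y` under the homeomorphism `y ↦ v * y`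
(use `y = x / v` and continuity: `∀ᶠ x in 𝓝 (v * y), P (x / v)` follows from `∀ᶠ y' in 𝓝 y, P y'` by `Tendsto`, since `v * y / v = y`); segments are mapped to segments. -/
def StSCL : Prop := ∀ (κ J : Type) (n : ℕ) (N N' : Nw κ J n) (S : Finset ℤ) (r₁ r₂ : ℝ) (v : ℂ),
  v ≠ 0 → NwOK N S r₁ r₂ → (∀ c a, N'.pos c a = v * N.pos c a) → N'.cls = N.cls → N'.ra = N.ra →
  N'.rb = N.rb → (∀ j, N'.d j = v * N.d j) → N'.op = N.op → N'.lp = N.lp → N'.lq = N.lq →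
  N'.e = N.e → (∀ x, N'.lam (v * x) = N.lam x) → (∀ c a z, N'.nu c a (v * z) = N.nu c a z) →
  NwOK N' S (‖v‖ * r₁) (‖v‖ * r₂)

end Pool.Agent.Helper54.UN
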